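import Pool.Agent.Lib.MP_682a55_lc.Form

set_option autoImplicit false

namespace Pool.Agent.Lib.MP_682a55_lc

namespace MS0

def AX : MS0 :=
  and (allEl 10 0 (allEl 11 1 (exEl 12 2 (T 10 11 12)))) <|
  and (allEl 10 0 (allEl 11 1 (allEl 12 2 (allEl 13 2
    (imp (and (T 10 11 12) (T 10 11 13)) (sub 12 13)))))) <|
  and (allEl 10 0 (allEl 11 1 (allEl 12 2 (allEl 13 0 (allEl 14 1
    (imp (and (T 10 11 12) (T 13 14 12)) (and (sub 10 13) (sub 11 14)))))))) <|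
  and (and (sub 3 2) (sub 4 2)) <|
  and (allEl 10 0 (exEl 11 1 (exEl 12 3 (T 10 11 12)))) <|
  and (allEl 10 0 (allEl 11 1 (allEl 12 3 (allEl 13 1 (allEl 14 3
    (imp (and (T 10 11 12) (T 10 13 14)) (sub 11 13))))))) <|
  and (allEl 10 0 (allEl 11 1 (allEl 12 3 (allEl 13 0 (allEl 14 3
    (imp (and (T 10 11 12) (T 13 11 14)) (sub 10 13))))))) <|
  and (allEl 10 0 (allEl 11 0 (or (relF 4 10 11) (relF 4 11 10)))) <|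
  and (allEl 10 0 (allEl 11 0 (allEl 12 0
    (imp (and (relF 4 10 11) (relF 4 11 12)) (relF 4 10 12))))) <|
  (allEl 10 0 (allEl 11 0 (imp (and (relF 4 10 11) (relF 4 11 10)) (sub 10 11))))

end MS0

def Dep {α : Type} (M : Matroid α) (x y z : α) : Prop := ¬ M.Indep ({x} ∪ {y} ∪ {z})

def Rle {α : Type} (M : Matroid α) (B D L : Set α) (x y : α) : Prop :=
  ∃ t ∈ B, (∃ z ∈ D, Dep M y t z) ∧ (∃ z ∈ L, Dep M x t z)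

structure AXsem {α : Type} (M : Matroid α) (A B C D L : Set α) : Prop where
  a1 : ∀ x ∈ A, ∀ y ∈ B, ∃ z ∈ C, Dep M x y z
  a2 : ∀ x ∈ A, ∀ y ∈ B, ∀ z ∈ C, ∀ z' ∈ C, Dep M x y z ∧ Dep M x y z' → z = z'
  a3 : ∀ x ∈ A, ∀ y ∈ B, ∀ z ∈ C, ∀ x' ∈ A, ∀ y' ∈ B, Dep M x y z ∧ Dep M x' y' z →
    x = x' ∧ y = y'
  a4 : D ⊆ C ∧ L ⊆ C
  a5 : ∀ x ∈ A, ∃ y ∈ B, ∃ z ∈ D, Dep M x y z
  a6 : ∀ x ∈ A, ∀ y ∈ B, ∀ z ∈ D, ∀ y' ∈ B, ∀ z' ∈ D, Dep M x y z ∧ Dep M x y' z' → y = y'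
  a7 : ∀ x ∈ A, ∀ y ∈ B, ∀ z ∈ D, ∀ x' ∈ A, ∀ z' ∈ D, Dep M x y z ∧ Dep M x' y z' → x = x'
  a8 : ∀ x ∈ A, ∀ y ∈ A, Rle M B D L x y ∨ Rle M B D L y x
  a9 : ∀ x ∈ A, ∀ y ∈ A, ∀ z ∈ A, Rle M B D L x y ∧ Rle M B D L y z → Rle M B D L x z
  a10 : ∀ x ∈ A, ∀ y ∈ A, Rle M B D L x y ∧ Rle M B D L y x → x = y

open MS0

theorem AXsem_iff {α : Type} (M : Matroid α) (A B C D L : Set α) : AXsem M A B C D L ↔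
    ((∀ x ∈ A, ∀ y ∈ B, ∃ z ∈ C, Dep M x y z) ∧
    (∀ x ∈ A, ∀ y ∈ B, ∀ z ∈ C, ∀ z' ∈ C, Dep M x y z ∧ Dep M x y z' → z = z') ∧
    (∀ x ∈ A, ∀ y ∈ B, ∀ z ∈ C, ∀ x' ∈ A, ∀ y' ∈ B, Dep M x y z ∧ Dep M x' y' z →
      x = x' ∧ y = y') ∧
    (D ⊆ C ∧ L ⊆ C) ∧
    (∀ x ∈ A, ∃ y ∈ B, ∃ z ∈ D, Dep M x y z) ∧
    (∀ x ∈ A, ∀ y ∈ B, ∀ z ∈ D, ∀ y' ∈ B, ∀ z' ∈ D, Dep M x y z ∧ Dep M x y' z' → y = y') ∧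
    (∀ x ∈ A, ∀ y ∈ B, ∀ z ∈ D, ∀ x' ∈ A, ∀ z' ∈ D, Dep M x y z ∧ Dep M x' y z' → x = x') ∧
    (∀ x ∈ A, ∀ y ∈ A, Rle M B D L x y ∨ Rle M B D L y x) ∧
    (∀ x ∈ A, ∀ y ∈ A, ∀ z ∈ A, Rle M B D L x y ∧ Rle M B D L y z → Rle M B D L x z) ∧
    (∀ x ∈ A, ∀ y ∈ A, Rle M B D L x y ∧ Rle M B D L y x → x = y)) := by
  constructor
  · rintro ⟨h1, h2, h3, h4, h5, h6, h7, h8, h9, h10⟩
    exact ⟨h1, h2, h3, h4, h5, h6, h7, h8, h9, h10⟩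
  · rintro ⟨h1, h2, h3, h4, h5, h6, h7, h8, h9, h10⟩
    exact ⟨h1, h2, h3, h4, h5, h6, h7, h8, h9, h10⟩

theorem sat_AX {α : Type} {M : Matroid α} {s : ℕ → Set α} (h0 : s 0 ⊆ M.E) (h1 : s 1 ⊆ M.E)
    (h2 : s 2 ⊆ M.E) (h3 : s 3 ⊆ M.E) (h4 : s 4 ⊆ M.E) :
    Sat M AX s ↔ AXsem M (s 0) (s 1) (s 2) (s 3) (s 4) := by
  rw [AXsem_iff]
  simp [AX, sat_allEl, sat_exEl, Sat, sat_imp, sat_or, sat_T, MS0.sat_relF, h0, h1, h2, h3, h4, Dep, Rle]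

end Pool.Agent.Lib.MP_682a55_lc
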