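import Pool.Agent.Lib.MP_682a55_lc.Ax

set_option autoImplicit false

namespace Pool.Agent.Lib.MP_682a55_lc

open MS0

theorem exists_crd {α : Type} {M : Matroid α} {A B C D L : Set α} (hfin : M.Finite)
    (hA : A ⊆ M.E) (hB : B ⊆ M.E) (hC : C ⊆ M.E) (hne : A.Nonempty)
    (h : AXsem M A B C D L) :
    ∃ (m : ℕ) (a b : ℕ → α) (c : ℕ → ℕ → α), Crd M A B C D L m a b c := by
  classical
  obtain ⟨x0, hx0⟩ := hne
  have hAfin : A.Finite := hfin.ground_finite.subset hA
  haveI : Fintype A := hAfin.fintype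
  let LO : LinearOrder A :=
    { le := fun x y => Rle M B D L x y
      le_refl := fun x => by
        rcases h.a8 x x.2 x x.2 with h | h <;> exact h
      le_trans := fun x y z h1 h2 => h.a9 x x.2 y y.2 z z.2 ⟨h1, h2⟩
      le_antisymm := fun x y h1 h2 => Subtype.ext (h.a10 x x.2 y y.2 ⟨h1, h2⟩)
      le_total := fun x y => h.a8 x x.2 y y.2
      toDecidableLE := Classical.decRel _
      toDecidableEq := Classical.decRel _
      toDecidableLT := Classical.decRel _ }
  have hle : ∀ x y : A, x ≤ y ↔ Rle M B D L x y := fun x y => Iff.rfl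
  let iso : Fin (Fintype.card A) ≃o A := monoEquivOfFin A rfl
  set m := Fintype.card A with hm
  let a : ℕ → α := fun i => if hi : i < m then (iso ⟨i, hi⟩ : A) else x0
  have ha : ∀ i (hi : i < m), a i = (iso ⟨i, hi⟩ : A) := fun i hi => dif_pos hi
  have haA : ∀ i, a i ∈ A := by
    intro i
    by_cases hi : i < m
    · rw [ha i hi]; exact (iso ⟨i, hi⟩).2
    · have : a i = x0 := dif_neg hi
      rw [this]; exact hx0
  choose bb hbb using h.a5
  let b : ℕ → α := fun i => bb (a i) (haA i)
  have hbB : ∀ i, b i ∈ B := fun i => (hbb (a i) (haA i)).1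
  have hbD : ∀ i, ∃ z ∈ D, Dep M (a i) (b i) z := fun i => (hbb (a i) (haA i)).2
  choose c hc using fun i j => h.a1 (a i) (haA i) (b j) (hbB j)
  have hainj : ∀ i j, i < m → j < m → a i = a j → i = j := by
    intro i j hi hj hij
    rw [ha i hi, ha j hj] at hij
    have := iso.injective (Subtype.ext hij)
    simpa using this
  have hbinj : ∀ i j, i < m → j < m → b i = b j → i = j := by
    intro i j hi hj hij
    obtain ⟨z, hz, hz'⟩ := hbD i
    obtain ⟨w, hw, hw'⟩ := hbD j
    apply hainj i j hi hj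
    refine h.a7 (a i) (haA i) (b i) (hbB i) z hz (a j) (haA j) w hw ⟨hz', ?_⟩
    rw [hij]; exact hw'
  have hdep : ∀ i j, i < m → j < m → ∀ z ∈ C, (Dep M (a i) (b j) z ↔ z = c i j) := by
    intro i j hi hj z hz
    constructor
    · intro hd
      exact h.a2 (a i) (haA i) (b j) (hbB j) z hz (c i j) (hc i j).1 ⟨hd, (hc i j).2⟩
    · rintro rfl
      exact (hc i j).2
  have hdD : ∀ i, i < m → ∀ y ∈ B, ((∃ z ∈ D, Dep M (a i) y z) ↔ y = b i) := by
    intro i hi y hy
    constructor
    · rintro ⟨z, hz, hd⟩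
      obtain ⟨w, hw, hw'⟩ := hbD i
      exact h.a6 (a i) (haA i) y hy z hz (b i) (hbB i) w hw ⟨hd, hw'⟩
    · rintro rfl
      exact hbD i
  refine ⟨m, a, b, c, ?_⟩
  refine
    { hA := hA
      hB := hB
      hC := hC
      A_iff := ?_
      a_inj := hainj
      c_inj := ?_
      b_mem := fun i _ => hbB i
      c_mem := fun i j _ _ => (hc i j).1
      dep := hdep
      dD := hdD
      DC := h.a4.1
      LC := h.a4.2
      dL := ?_ }
  · intro x
    constructor
    · intro hx
      obtain ⟨⟨i, hi⟩, hi'⟩ := iso.surjective ⟨x, hx⟩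
      refine ⟨i, hi, ?_⟩
      rw [ha i hi, hi']
    · rintro ⟨i, _, rfl⟩
      exact haA i
  · intro i j i' j' hi hj hi' hj' hcc
    obtain ⟨h1, h2⟩ := h.a3 (a i) (haA i) (b j) (hbB j) (c i j) (hc i j).1 (a i') (haA i')
      (b j') (hbB j') ⟨(hc i j).2, by rw [hcc]; exact (hc i' j').2⟩
    exact ⟨hainj _ _ hi hi' h1, hbinj _ _ hj hj' h2⟩
  · intro i j hi hj
    have h1 : (i ≤ j) ↔ Rle M B D L (a i) (a j) := by
      rw [ha i hi, ha j hj, ← hle, iso.le_iff_le, Fin.mk_le_mk]
    rw [h1]
    constructor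
    · intro hcL
      exact ⟨b j, hbB j, hbD j, c i j, hcL, (hc i j).2⟩
    · rintro ⟨t, ht, h2, z, hz, h3⟩
      rw [hdD j hj t ht] at h2
      subst h2
      rw [hdep i j hi hj z (h.a4.2 hz)] at h3
      rwa [h3] at hz

/-! ### numerals -/

namespace MS0

def ltF (x y : ℕ) : MS0 := and (relF 4 x y) (neg (relF 4 y x))

def numSucc : MS0 :=
  and (ltF 11 10) (neg (exEl 12 0 (and (ltF 11 12) (ltF 12 10))))

def num : ℕ → MS0
  | 0 => allEl 11 0 (relF 4 10 11)
  | k + 1 => exEl 11 0 (and numSucc (exEl 10 0 (and (sub 10 11) (num k))))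

end MS0

section

variable {α : Type} {M : Matroid α} {s : ℕ → Set α} {m : ℕ} {a b : ℕ → α} {c : ℕ → ℕ → α}

theorem Crd.update (h : Crd M (s 0) (s 1) (s 2) (s 3) (s 4) m a b c) {w : ℕ} (hw : 10 ≤ w)
    (X : Set α) : Crd M (Function.update s w X 0) (Function.update s w X 1)
      (Function.update s w X 2) (Function.update s w X 3) (Function.update s w X 4) m a b c := by
  have g0 : Function.update s w X 0 = s 0 := Function.update_of_ne (by omega) _ _
  have g1 : Function.update s w X 1 = s 1 := Function.update_of_ne (by omega) _ _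
  have g2 : Function.update s w X 2 = s 2 := Function.update_of_ne (by omega) _ _
  have g3 : Function.update s w X 3 = s 3 := Function.update_of_ne (by omega) _ _
  have g4 : Function.update s w X 4 = s 4 := Function.update_of_ne (by omega) _ _
  rw [g0, g1, g2, g3, g4]; exact h

theorem Crd.sat_le (h : Crd M (s 0) (s 1) (s 2) (s 3) (s 4) m a b c) {x y : ℕ}
    (hx : 10 ≤ x) (hy : 10 ≤ y) {i j : ℕ}
    (hi : i < m) (hj : j < m) (hsx : s x = {a i}) (hsy : s y = {a j}) :
    Sat M (relF 4 x y) s ↔ i ≤ j := by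
  rw [h.sat_relF (by decide) (by decide) hx hy h.LC hi hj hsx hsy, h.dL _ _ hi hj]

theorem Crd.sat_lt (h : Crd M (s 0) (s 1) (s 2) (s 3) (s 4) m a b c) {x y : ℕ}
    (hx : 10 ≤ x) (hy : 10 ≤ y) {i j : ℕ}
    (hi : i < m) (hj : j < m) (hsx : s x = {a i}) (hsy : s y = {a j}) :
    Sat M (ltF x y) s ↔ i < j := by
  simp only [ltF, Sat, h.sat_le hx hy hi hj hsx hsy, h.sat_le hy hx hj hi hsy hsx]
  omega

theorem Crd.sat_exEl (h : Crd M (s 0) (s 1) (s 2) (s 3) (s 4) m a b c) {w : ℕ} (hw : 10 ≤ w)
    {φ : MS0} : Sat M (exEl w 0 φ) s ↔ ∃ i, i < m ∧ Sat M φ (Function.update s w {a i}) := by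
  rw [MS0.sat_exEl (by omega) (by omega) h.hA]
  constructor
  · rintro ⟨x, hx, h3⟩
    obtain ⟨i, hi, rfl⟩ := (h.A_iff x).1 hx
    exact ⟨i, hi, h3⟩
  · rintro ⟨i, hi, h3⟩
    exact ⟨a i, (h.A_iff _).2 ⟨i, hi, rfl⟩, h3⟩

theorem Crd.sat_allEl (h : Crd M (s 0) (s 1) (s 2) (s 3) (s 4) m a b c) {w : ℕ} (hw : 10 ≤ w)
    {φ : MS0} : Sat M (allEl w 0 φ) s ↔ ∀ i, i < m → Sat M φ (Function.update s w {a i}) := by
  simp only [allEl, Sat, h.sat_exEl hw]; push Not; rfl

theorem Crd.sat_numSucc (h : Crd M (s 0) (s 1) (s 2) (s 3) (s 4) m a b c) {i j : ℕ}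
    (hi : i < m) (hj : j < m) (hsx : s 10 = {a i}) (hsy : s 11 = {a j}) :
    Sat M numSucc s ↔ i = j + 1 := by
  simp only [numSucc, Sat]
  rw [h.sat_lt (by decide) (by decide) hj hi hsy hsx, h.sat_exEl (by decide)]
  have key : ∀ l, l < m → (Sat M (and (ltF 11 12) (ltF 12 10)) (Function.update s 12 {a l}) ↔
      (j < l ∧ l < i)) := by
    intro l hl
    have hu := h.update (w := 12) (by decide) {a l}
    simp only [Sat]
    rw [hu.sat_lt (by decide) (by decide) hj hl (by rwa [Function.update_of_ne (by decide)])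
      (by rw [Function.update_self]),
      hu.sat_lt (by decide) (by decide) hl hi (by rw [Function.update_self])
      (by rwa [Function.update_of_ne (by decide)])]
  constructor
  · rintro ⟨h1, h2⟩
    by_contra h3
    exact h2 ⟨j + 1, by omega, (key _ (by omega)).2 (by omega)⟩
  · intro h1
    refine ⟨by omega, ?_⟩
    rintro ⟨l, hl, h2⟩
    have := (key l hl).1 h2
    omega

theorem Crd.sat_num (k : ℕ) : ∀ {s : ℕ → Set α}, (Crd M (s 0) (s 1) (s 2) (s 3) (s 4) m a b c) →
    ∀ {i : ℕ}, i < m → s 10 = {a i} → (Sat M (num k) s ↔ i = k) := by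
  induction k with
  | zero =>
    intro s h i hi hs
    rw [num, h.sat_allEl (by decide)]
    have key : ∀ j, j < m → (Sat M (relF 4 10 11) (Function.update s 11 {a j}) ↔ i ≤ j) := by
      intro j hj
      exact (h.update (w := 11) (by decide) {a j}).sat_le (by decide) (by decide) hi hj
        (by rwa [Function.update_of_ne (by decide)]) (by rw [Function.update_self])
    constructor
    · intro h1
      have := (key 0 (by omega)).1 (h1 0 (by omega))
      omega
    · rintro rfl j hj
      exact (key j hj).2 (Nat.zero_le _)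
  | succ k ih =>
    intro s h i hi hs
    rw [num, h.sat_exEl (by decide)]
    have key : ∀ j, j < m → (Sat M (and numSucc (exEl 10 0 (and (sub 10 11) (num k))))
        (Function.update s 11 {a j}) ↔ (i = j + 1 ∧ j = k)) := by
      intro j hj
      have hu := h.update (w := 11) (by decide) {a j}
      simp only [Sat]
      rw [hu.sat_numSucc hi hj (by rwa [Function.update_of_ne (by decide)])
        (by rw [Function.update_self]), hu.sat_exEl (by decide)]
      apply and_congr_right
      intro _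
      constructor
      · rintro ⟨l, hl, h1⟩
        simp only [Sat] at h1
        obtain ⟨h1, h2⟩ := h1
        rw [Function.update_self, Function.update_of_ne (by decide), Function.update_self,
          Set.singleton_subset_iff, Set.mem_singleton_iff] at h1
        have := h.a_inj _ _ hl hj h1
        subst this
        exact (ih (hu.update (w := 10) (by decide) _) hl (by rw [Function.update_self])).1 h2
      · intro hjk
        refine ⟨j, hj, ?_⟩
        simp only [Sat]
        refine ⟨?_, (ih (hu.update (w := 10) (by decide) _) hj (by rw [Function.update_self])).2 hjk⟩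
        rw [Function.update_self, Function.update_of_ne (by decide), Function.update_self]
    constructor
    · rintro ⟨j, hj, h1⟩
      have := (key j hj).1 h1
      omega
    · rintro rfl
      exact ⟨k, by omega, (key k (by omega)).2 ⟨rfl, rfl⟩⟩

end

end Pool.Agent.Lib.MP_682a55_lc
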