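import Mathlib

set_option autoImplicit false

namespace Pool.Agent.Lib.MP_682a55_lc

/-- An `H`-gain graph with vertex type `V` and edge type `E` (loops and parallel edges allowed).
The edge `e` is oriented from `src e` to `tgt e` and carries the gain `gain e` in this direction;
traversed in the other direction it carries the gain `(gain e)⁻¹`. -/
structure GainGraph (H V E : Type*) where
  src : E → V
  tgt : E → V
  gain : E → H

namespace GainGraph

variable {H V E : Type*} (G : GainGraph H V E)

/-- A pair `(e, true)` is the edge `e` traversed along its orientation, a pair `(e, false)` is the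
edge `e` traversed against it. This is the vertex where the traversal starts. -/
def start (d : E × Bool) : V := if d.2 then G.src d.1 else G.tgt d.1

/-- The vertex where the traversal of a directed edge ends. -/
def finish (d : E × Bool) : V := if d.2 then G.tgt d.1 else G.src d.1

/-- The gain of a directed edge. -/
def dirGain [Group H] (d : E × Bool) : H := if d.2 then G.gain d.1 else (G.gain d.1)⁻¹

/-- A traversal of a cycle: a nonempty closed walk without repeated vertices and without repeated
edges. A loop gives a cycle of length `1`, two parallel edges give a cycle of length `2`. -/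
structure IsCycle (l : List (E × Bool)) : Prop where
  ne_nil : l ≠ []
  walk : l.IsChain (fun d d' => G.finish d = G.start d')
  closed : G.finish (l.getLast ne_nil) = G.start (l.head ne_nil)
  vertices : (l.map G.start).Nodup
  edges : (l.map Prod.fst).Nodup

/-- The product of the gains along a walk. -/
def walkGain [Group H] (l : List (E × Bool)) : H := (l.map G.dirGain).prod

/-- `v` is joined to `w` by a walk using only edges from `X`, that is, `v` and `w` lie in the same
connected component of the subgraph `(V, X)`. -/
def Joined (X : Set E) (v w : V) : Prop :=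
  Relation.ReflTransGen (fun u u' => ∃ d : E × Bool, d.1 ∈ X ∧ G.start d = u ∧ G.finish d = u') v w

/-- `l` traverses a cycle of the connected component of `(V, X)` that contains `v`. -/
def CycleAt (X : Set E) (v : V) (l : List (E × Bool)) : Prop :=
  G.IsCycle l ∧ (∀ d ∈ l, d.1 ∈ X) ∧ (∀ d ∈ l, G.Joined X v (G.start d))

/-- Independence in the frame matroid: every connected component of `(V, X)` either is a tree
(contains no cycle) or contains exactly one cycle (as a set of edges), and that cycle is
unbalanced. -/
def FrameIndep [Group H] (X : Set E) : Prop :=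
  ∀ v : V, (¬ ∃ l, G.CycleAt X v l) ∨
    ∃ l, G.CycleAt X v l ∧ G.walkGain l ≠ 1 ∧
      ∀ l', G.CycleAt X v l' → ∀ e, e ∈ l'.map Prod.fst ↔ e ∈ l.map Prod.fst

end GainGraph

/-- A matroid is `H`-gain-graphic if it is isomorphic to the frame matroid of a finite
`H`-gain graph. -/
def IsGainGraphic (H : Type*) [Group H] {α : Type} (M : Matroid α) : Prop :=
  ∃ (V E : Type) (_ : Finite V) (_ : Finite E) (G : GainGraph H V E) (φ : M.E ≃ E),
    ∀ X : Set M.E, M.Indep (Subtype.val '' X) ↔ G.FrameIndep (φ '' X)

/-- Formulas of the monadic second-order language `MS₀` of matroids. The variables `0, 1, 2, …`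
range over subsets of the ground set. `sub i j` says `Xᵢ ⊆ Xⱼ`, `ind i` says that `Xᵢ` is
independent. -/
inductive MS0 : Type
  | sub (i j : ℕ) : MS0
  | ind (i : ℕ) : MS0
  | neg (φ : MS0) : MS0
  | and (φ ψ : MS0) : MS0
  | ex (i : ℕ) (φ : MS0) : MS0

namespace MS0

/-- Satisfaction of a formula in a matroid under an assignment of sets to the variables. -/
def Sat {α : Type} (M : Matroid α) : MS0 → (ℕ → Set α) → Prop
  | sub i j, s => s i ⊆ s j
  | ind i, s => M.Indep (s i)
  | neg φ, s => ¬ Sat M φ s
  | and φ ψ, s => Sat M φ s ∧ Sat M ψ s
  | ex i φ, s => ∃ X, X ⊆ M.E ∧ Sat M φ (Function.update s i X)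

/-- The free variables of a formula. -/
def fv : MS0 → Set ℕ
  | sub i j => {i, j}
  | ind i => {i}
  | neg φ => fv φ
  | and φ ψ => fv φ ∪ fv ψ
  | ex i φ => fv φ \ {i}

/-- A sentence is a formula without free variables. -/
def IsSentence (φ : MS0) : Prop := φ.fv = ∅

/-- Truth of a sentence in a matroid (for sentences the assignment is irrelevant; it must take
values in the subsets of the ground set). -/
def TrueIn {α : Type} (M : Matroid α) (φ : MS0) : Prop :=
  ∀ s : ℕ → Set α, (∀ i, s i ⊆ M.E) → Sat M φ s

/-- Goedel numbering of formulas. It is a bijection between formulas and natural numbers. -/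
def code : MS0 → ℕ
  | sub i j => 5 * Nat.pair i j
  | ind i => 5 * i + 1
  | neg φ => 5 * code φ + 2
  | and φ ψ => 5 * Nat.pair (code φ) (code ψ) + 3
  | ex i φ => 5 * Nat.pair i (code φ) + 4

theorem code_injective : Function.Injective code := by
  intro φ
  induction φ with
  | sub i j =>
    intro ψ h
    cases ψ <;> simp only [code] at h <;> first | omega | skip
    rename_i i' j'
    have h' : Nat.pair i j = Nat.pair i' j' := by omega
    rw [Nat.pair_eq_pair] at h'
    rw [h'.1, h'.2]
  | ind i =>
    intro ψ h
    cases ψ <;> simp only [code] at h <;> first | omega | skip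
    rename_i i'
    have h' : i = i' := by omega
    rw [h']
  | neg φ ih =>
    intro ψ h
    cases ψ <;> simp only [code] at h <;> first | omega | skip
    rename_i φ'
    have h' : code φ = code φ' := by omega
    rw [ih h']
  | and φ χ ih ih' =>
    intro ψ h
    cases ψ <;> simp only [code] at h <;> first | omega | skip
    rename_i φ' χ'
    have h' : Nat.pair (code φ) (code χ) = Nat.pair (code φ') (code χ') := by omega
    rw [Nat.pair_eq_pair] at h'
    rw [ih h'.1, ih' h'.2]
  | ex i φ ih =>
    intro ψ h
    cases ψ <;> simp only [code] at h <;> first | omega | skip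
    rename_i i' φ'
    have h' : Nat.pair i (code φ) = Nat.pair i' (code φ') := by omega
    rw [Nat.pair_eq_pair] at h'
    rw [h'.1, ih h'.2]

theorem code_surjective : Function.Surjective code := by
  intro n
  induction n using Nat.strong_induction_on with
  | _ n ih =>
    have hn : n = 5 * (n / 5) + n % 5 := by omega
    have hlt : n % 5 < 5 := Nat.mod_lt _ (by decide)
    have hp : Nat.pair (Nat.unpair (n / 5)).1 (Nat.unpair (n / 5)).2 = n / 5 :=
      Nat.pair_unpair _
    have hl := Nat.unpair_left_le (n / 5)
    have hr := Nat.unpair_right_le (n / 5)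
    interval_cases hm : n % 5
    · exact ⟨sub (Nat.unpair (n / 5)).1 (Nat.unpair (n / 5)).2, by simp only [code]; omega⟩
    · exact ⟨ind (n / 5), by simp only [code]; omega⟩
    · obtain ⟨φ, hφ⟩ := ih (n / 5) (by omega)
      exact ⟨neg φ, by simp only [code]; omega⟩
    · obtain ⟨φ, hφ⟩ := ih (Nat.unpair (n / 5)).1 (by omega)
      obtain ⟨ψ, hψ⟩ := ih (Nat.unpair (n / 5)).2 (by omega)
      exact ⟨and φ ψ, by simp only [code]; rw [hφ, hψ]; omega⟩
    · obtain ⟨φ, hφ⟩ := ih (Nat.unpair (n / 5)).2 (by omega)
      exact ⟨ex (Nat.unpair (n / 5)).1 φ, by simp only [code]; rw [hφ]; omega⟩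

end MS0

/-- The `MS₀` theory of the class of rank-`3` `H`-gain-graphic (finite) matroids: the set of
sentences that are true in every matroid of the class. -/
def theoryRankThree (H : Type*) [Group H] : Set MS0 :=
  {φ | φ.IsSentence ∧ ∀ (α : Type) (M : Matroid α), M.Finite → M.eRank = 3 → IsGainGraphic H M →
    φ.TrueIn M}

/-- A set of sentences is decidable if there is a computable function that, given the code of any
sentence, correctly reports whether the sentence belongs to the set. -/
def DecidableTheory (T : Set MS0) : Prop :=
  ∃ f : ℕ → Bool, Computable f ∧ ∀ φ : MS0, φ.IsSentence → (f φ.code = true ↔ φ ∈ T)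

end Pool.Agent.Lib.MP_682a55_lc
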