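import Mathlib

set_option autoImplicit false

namespace Pool.Agent.Lib.MP_682a55_lc

/-- Predicates on initial segments `[0,m)` with `k` element variables and `l` binary relation
variables. -/
abbrev Pred (k l : ℕ) := ℕ → (Fin k → ℕ) → (Fin l → ℕ → ℕ → Prop) → Prop

/-- Second-order definable families of predicates. -/
inductive Dfn : ∀ {k l : ℕ}, Pred k l → Prop
  | le {k l : ℕ} (x y : Fin k) : Dfn (l := l) (fun _ e _ => e x ≤ e y)
  | rel {k l : ℕ} (j : Fin l) (x y : Fin k) : Dfn (fun _ e r => r j (e x) (e y))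
  | neg {k l : ℕ} {P : Pred k l} : Dfn P → Dfn (fun m e r => ¬ P m e r)
  | and {k l : ℕ} {P Q : Pred k l} : Dfn P → Dfn Q → Dfn (fun m e r => P m e r ∧ Q m e r)
  | exF {k l : ℕ} {P : Pred (k+1) l} : Dfn P →
      Dfn (k := k) (fun m e r => ∃ x, x < m ∧ P m (Fin.cons x e) r)
  | exS {k l : ℕ} {P : Pred k (l+1)} : Dfn P →
      Dfn (l := l) (fun m e r => ∃ R : ℕ → ℕ → Prop, P m e (Fin.cons R r))
  | ren {k l k' l' : ℕ} {P : Pred k l} (ρ : Fin k → Fin k') (σ : Fin l → Fin l') : Dfn P →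
      Dfn (k := k') (l := l') (fun m e r => P m (e ∘ ρ) (r ∘ σ))
  | congr {k l : ℕ} {P Q : Pred k l} : Dfn P →
      (∀ m e r, (∀ i, e i < m) → (P m e r ↔ Q m e r)) → Dfn Q

namespace Dfn

variable {k l : ℕ}

theorem or {P Q : Pred k l} (hP : Dfn P) (hQ : Dfn Q) :
    Dfn (fun m e r => P m e r ∨ Q m e r) :=
  congr (neg (and (neg hP) (neg hQ))) (fun m e r _ => by tauto)

theorem imp {P Q : Pred k l} (hP : Dfn P) (hQ : Dfn Q) :
    Dfn (fun m e r => P m e r → Q m e r) :=
  congr (neg (and hP (neg hQ))) (fun m e r _ => by tauto)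

theorem all {P : Pred (k+1) l} (hP : Dfn P) :
    Dfn (k := k) (fun m e r => ∀ x, x < m → P m (Fin.cons x e) r) :=
  congr (neg (exF (neg hP))) (fun m e r _ => by push Not; rfl)

theorem lt (x y : Fin k) : Dfn (l := l) (fun _ e _ => e x < e y) :=
  congr (neg (le y x)) (fun m e r _ => by simp)

theorem eq (x y : Fin k) : Dfn (l := l) (fun _ e _ => e x = e y) :=
  congr (and (le x y) (le y x)) (fun m e r _ => by
    constructor
    · intro h; exact le_antisymm h.1 h.2
    · intro h; exact ⟨h.le, h.ge⟩)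

theorem zero (x : Fin k) : Dfn (l := l) (fun _ e _ => e x = 0) :=
  congr (all (le x.succ 0)) (fun m e r he => by
    simp only [Fin.cons_succ, Fin.cons_zero]
    constructor
    · intro h
      have := h 0 (lt_of_le_of_lt (Nat.zero_le _) (he x))
      omega
    · intro h y _; omega)

theorem succ (x y : Fin k) : Dfn (l := l) (fun _ e _ => e y = e x + 1) :=
  congr (and (lt x y) (neg (exF (and (lt x.succ 0) (lt 0 y.succ))))) (fun m e r he => by
    simp only [Fin.cons_succ, Fin.cons_zero]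
    constructor
    · rintro ⟨h1, h2⟩
      by_contra h3
      exact h2 ⟨e x + 1, by have := he y; omega, by omega, by omega⟩
    · intro h
      refine ⟨by omega, ?_⟩
      rintro ⟨z, _, h1, h2⟩
      omega)

end Dfn

/-- Relations on natural numbers that are eventually definable on initial segments. -/
def Good {k : ℕ} (R : (Fin k → ℕ) → Prop) : Prop :=
  ∃ P : Pred k 0, Dfn P ∧ (∀ m e r, (∀ i, e i < m) → P m e r → R e) ∧
    (∀ e, R e → ∃ M, ∀ m, M ≤ m → ∀ r, P m e r)

namespace Good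

variable {k : ℕ}

theorem of_exact {R : (Fin k → ℕ) → Prop} (h : Dfn (l := 0) (fun _ e _ => R e)) : Good R :=
  ⟨_, h, fun _ _ _ _ h => h, fun _ h => ⟨0, fun _ _ _ => h⟩⟩

theorem and {R S : (Fin k → ℕ) → Prop} (hR : Good R) (hS : Good S) :
    Good (fun e => R e ∧ S e) := by
  obtain ⟨P, hP, sP, cP⟩ := hR
  obtain ⟨Q, hQ, sQ, cQ⟩ := hS
  refine ⟨_, Dfn.and hP hQ, fun m e r he h => ⟨sP m e r he h.1, sQ m e r he h.2⟩, ?_⟩
  rintro e ⟨h1, h2⟩
  obtain ⟨M, hM⟩ := cP e h1
  obtain ⟨N, hN⟩ := cQ e h2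
  exact ⟨max M N, fun m hm r => ⟨hM m (le_of_max_le_left hm) r, hN m (le_of_max_le_right hm) r⟩⟩

theorem ex {R : (Fin (k+1) → ℕ) → Prop} (hR : Good R) :
    Good (k := k) (fun e => ∃ x, R (Fin.cons x e)) := by
  obtain ⟨P, hP, sP, cP⟩ := hR
  refine ⟨_, Dfn.exF hP, ?_, ?_⟩
  · rintro m e r he ⟨x, hx, h⟩
    refine ⟨x, sP m _ r ?_ h⟩
    intro i
    refine Fin.cases ?_ ?_ i
    · simpa using hx
    · intro j; simpa using he j
  · rintro e ⟨x, hx⟩
    obtain ⟨M, hM⟩ := cP _ hx
    exact ⟨max M (x+1), fun m hm r => ⟨x, by have := le_of_max_le_right hm; omega,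
      hM m (le_of_max_le_left hm) r⟩⟩

theorem ren {k' : ℕ} {R : (Fin k → ℕ) → Prop} (ρ : Fin k → Fin k') (hR : Good R) :
    Good (k := k') (fun e => R (e ∘ ρ)) := by
  obtain ⟨P, hP, sP, cP⟩ := hR
  refine ⟨_, Dfn.ren ρ id hP, ?_, ?_⟩
  · intro m e r he h
    exact sP m _ _ (fun i => he _) h
  · intro e h
    obtain ⟨M, hM⟩ := cP _ h
    exact ⟨M, fun m hm r => hM m hm _⟩

theorem congr {R S : (Fin k → ℕ) → Prop} (hR : Good R) (h : ∀ e, R e ↔ S e) : Good S := by
  have : R = S := funext fun e => propext (h e)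
  rwa [← this]

theorem ball {R : (Fin (k+1) → ℕ) → Prop} (j : Fin k) (hR : Good R) :
    Good (k := k) (fun e => ∀ x, x < e j → R (Fin.cons x e)) := by
  obtain ⟨P, hP, sP, cP⟩ := hR
  refine ⟨_, Dfn.all (Dfn.imp (Dfn.lt 0 j.succ) hP), ?_, ?_⟩
  · intro m e r he h x hx
    refine sP m _ r ?_ (h x (hx.trans (he j)) (by simpa using hx))
    intro i
    refine Fin.cases ?_ ?_ i
    · simpa using hx.trans (he j)
    · intro j; simpa using he j
  · intro e h
    have : ∀ x : ℕ, ∃ M, x < e j → ∀ m, M ≤ m → ∀ r, P m (Fin.cons x e) r := by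
      intro x
      by_cases hx : x < e j
      · obtain ⟨M, hM⟩ := cP _ (h x hx)
        exact ⟨M, fun _ => hM⟩
      · exact ⟨0, fun h => absurd h hx⟩
    choose M hM using this
    refine ⟨(Finset.range (e j)).sup M, fun m hm r x _ hx => ?_⟩
    have hx' : x < e j := by simpa using hx
    exact hM x hx' m (le_trans (Finset.le_sup (f := M) (Finset.mem_range.2 hx')) hm) r

theorem allFin {n : ℕ} {R : Fin n → (Fin k → ℕ) → Prop} (hR : ∀ i, Good (R i)) :
    Good (fun e => ∀ i, R i e) := by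
  induction n with
  | zero =>
    refine ⟨fun m _ _ => True, ?_, ?_, ?_⟩
    · exact Dfn.congr (P := fun m e r => ¬ ((¬ ∃ x, x < m ∧ (Fin.cons x e : Fin (k+1) → ℕ) 0 ≤ (Fin.cons x e : Fin (k+1) → ℕ) 0) ∧ (∃ x, x < m ∧ (Fin.cons x e : Fin (k+1) → ℕ) 0 ≤ (Fin.cons x e : Fin (k+1) → ℕ) 0)))
        (Dfn.neg (Dfn.and (Dfn.neg (Dfn.exF (Dfn.le 0 0))) (Dfn.exF (Dfn.le 0 0)))) (fun m e r _ => iff_of_true (fun h => h.1 h.2) trivial)
    · intro m e r _ _ i; exact i.elim0
    · intro e _; exact ⟨0, fun _ _ _ => trivial⟩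
  | succ n ih =>
    refine (and (hR 0) (ih (R := fun i => R i.succ) (fun i => hR i.succ))).congr ?_
    intro e
    constructor
    · rintro ⟨h1, h2⟩ i
      exact Fin.cases h1 h2 i
    · intro h; exact ⟨h 0, fun i => h i.succ⟩

theorem exN (n : ℕ) {R : (Fin n → ℕ) → (Fin k → ℕ) → Prop}
    (hR : Good (fun e : Fin (n + k) → ℕ => R (fun i => e (Fin.castAdd k i)) (fun i => e (Fin.natAdd n i)))) :
    Good (fun e => ∃ w, R w e) := by
  induction n generalizing k with
  | zero =>
    have h := ren (k' := k) (fun i => Fin.cast (by omega) i) hR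
    refine h.congr ?_
    intro e
    have a1 : ∀ w : Fin 0 → ℕ, (fun i : Fin 0 => (e ∘ fun i : Fin (0 + k) => (Fin.cast (by omega) i : Fin k)) (Fin.castAdd k i)) = w := by
      intro w; funext i; exact i.elim0
    have a2 : (fun i : Fin k => (e ∘ fun i : Fin (0 + k) => (Fin.cast (by omega) i : Fin k)) (Fin.natAdd 0 i)) = e := by
      funext i
      simp only [Function.comp]
      congr 1
      ext; simp
    rw [a2]
    constructor
    · intro h
      exact ⟨_, h⟩
    · rintro ⟨w, h⟩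
      rw [a1 w]
      exact h
  | succ n ih =>
    -- view `∃ w : Fin (n+1) → ℕ` as `∃ w' : Fin n → ℕ, ∃ x`
    have h1 : Good (fun e : Fin (n + k) → ℕ =>
        ∃ x, R (Fin.cons x (fun i => e (Fin.castAdd k i))) (fun i => e (Fin.natAdd n i))) := by
      have h0 := ren (k' := n + k + 1) (fun i : Fin (n + 1 + k) =>
        (Fin.cast (by omega) i : Fin (n + k + 1))) hR
      refine (ex h0).congr ?_
      intro e
      apply exists_congr
      intro x
      have a1 : (fun i : Fin (n+1) => ((Fin.cons x e : Fin (n + k + 1) → ℕ) ∘ fun i : Fin (n + 1 + k) =>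
        (Fin.cast (by omega) i : Fin (n + k + 1))) (Fin.castAdd k i)) = Fin.cons x (fun i => e (Fin.castAdd k i)) := by
        funext i
        refine Fin.cases ?_ ?_ i
        · simp only [Function.comp]
          rfl
        · intro j
          simp only [Function.comp, Fin.cons_succ]
          rfl
      have a2 : (fun i : Fin k => ((Fin.cons x e : Fin (n + k + 1) → ℕ) ∘ fun i : Fin (n + 1 + k) =>
        (Fin.cast (by omega) i : Fin (n + k + 1))) (Fin.natAdd (n+1) i)) = (fun i => e (Fin.natAdd n i)) := by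
        funext i
        simp only [Function.comp]
        have : (Fin.cast (by omega) (Fin.natAdd (n+1) i) : Fin (n + k + 1)) = (Fin.natAdd n i).succ := by
          ext; simp; omega
        rw [this, Fin.cons_succ]
      rw [a1, a2]
    have h2 := ih (R := fun w e => ∃ x, R (Fin.cons x w) e) h1
    refine h2.congr ?_
    intro e
    constructor
    · rintro ⟨w, x, h⟩
      exact ⟨_, h⟩
    · rintro ⟨w, h⟩
      refine ⟨Fin.tail w, w 0, ?_⟩
      rwa [Fin.cons_self_tail]

end Good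

end Pool.Agent.Lib.MP_682a55_lc
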