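import Pool.Agent.Lib.MP_682a55_lc.Defs
import Pool.Agent.Lib.MP_682a55_lc.Dfn

set_option autoImplicit false

namespace Pool.Agent.Lib.MP_682a55_lc

namespace MS0

def al (i : ℕ) (φ : MS0) : MS0 := neg (ex i (neg φ))
def imp (φ ψ : MS0) : MS0 := neg (and φ (neg ψ))
def or (φ ψ : MS0) : MS0 := neg (and (neg φ) (neg ψ))

def sing (w : ℕ) : MS0 :=
  and (neg (al 5 (sub w 5))) (al 5 (imp (sub 5 w) (or (sub w 5) (al 6 (sub 5 6)))))

def exEl (w X : ℕ) (φ : MS0) : MS0 := ex w (and (sing w) (and (sub w X) φ))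
def allEl (w X : ℕ) (φ : MS0) : MS0 := neg (exEl w X (neg φ))

def T (x y z : ℕ) : MS0 := neg (ex 7 (and (sub x 7) (and (sub y 7) (and (sub z 7) (ind 7)))))

def relF (X x y : ℕ) : MS0 := exEl 8 1 (and (exEl 9 3 (T y 8 9)) (exEl 9 X (T x 8 9)))

variable {α : Type} {M : Matroid α} {s : ℕ → Set α} {φ ψ : MS0}

theorem sat_imp : Sat M (imp φ ψ) s ↔ (Sat M φ s → Sat M ψ s) := by
  simp only [imp, Sat]; tauto

theorem sat_or : Sat M (or φ ψ) s ↔ (Sat M φ s ∨ Sat M ψ s) := by
  simp only [or, Sat]; tauto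

theorem sat_al {i : ℕ} : Sat M (al i φ) s ↔ ∀ X, X ⊆ M.E → Sat M φ (Function.update s i X) := by
  simp only [al, Sat]; push Not; rfl

theorem sat_sing {w : ℕ} (h5 : w ≠ 5) (hw : s w ⊆ M.E) :
    Sat M (sing w) s ↔ ∃ x, s w = {x} := by
  simp only [sing, Sat, sat_al, sat_imp, sat_or, Function.update_self, Function.update_of_ne h5,
    Function.update_of_ne (show (5 : ℕ) ≠ 6 by decide)]
  constructor
  · rintro ⟨h1, h2⟩
    push Not at h1
    obtain ⟨X, hX, h1⟩ := h1
    obtain ⟨x, hx, -⟩ := Set.not_subset.1 h1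
    refine ⟨x, ?_⟩
    have := h2 {x} (Set.singleton_subset_iff.2 (hw hx)) (Set.singleton_subset_iff.2 hx)
    rcases this with h | h
    · exact Set.Subset.antisymm h (Set.singleton_subset_iff.2 hx)
    · have := h ∅ (Set.empty_subset _)
      simp at this
  · rintro ⟨x, hx⟩
    rw [hx]
    refine ⟨fun h => ?_, fun X hX hX' => ?_⟩
    · have := h ∅ (Set.empty_subset _)
      simp at this
    · rcases Set.subset_singleton_iff_eq.1 hX' with h | h
      · right; intro W _; rw [h]; exact Set.empty_subset _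
      · left; rw [h]

theorem sat_exEl {w X : ℕ} (h5 : w ≠ 5) (hwX : X ≠ w) (hX : s X ⊆ M.E) :
    Sat M (exEl w X φ) s ↔ ∃ x ∈ s X, Sat M φ (Function.update s w {x}) := by
  simp only [exEl, Sat]
  constructor
  · rintro ⟨Y, hY, h1, h2, h3⟩
    rw [sat_sing h5 (by simpa using hY)] at h1
    obtain ⟨x, hx⟩ := h1
    rw [Function.update_self] at hx
    subst hx
    rw [Function.update_self, Function.update_of_ne hwX] at h2
    exact ⟨x, by simpa using h2, h3⟩
  · rintro ⟨x, hx, h⟩
    refine ⟨{x}, Set.singleton_subset_iff.2 (hX hx), ?_, ?_, h⟩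
    · rw [sat_sing h5 (by simpa using hX hx)]
      exact ⟨x, by simp⟩
    · rw [Function.update_self, Function.update_of_ne hwX]
      simpa using hx

theorem sat_allEl {w X : ℕ} (h5 : w ≠ 5) (hwX : X ≠ w) (hX : s X ⊆ M.E) :
    Sat M (allEl w X φ) s ↔ ∀ x ∈ s X, Sat M φ (Function.update s w {x}) := by
  simp only [allEl, Sat, sat_exEl h5 hwX hX]; push Not; rfl

theorem sat_T {x y z : ℕ} (hx : x ≠ 7) (hy : y ≠ 7) (hz : z ≠ 7) :
    Sat M (T x y z) s ↔ ¬ M.Indep (s x ∪ s y ∪ s z) := by
  simp only [T, Sat, Function.update_self, Function.update_of_ne hx, Function.update_of_ne hy,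
    Function.update_of_ne hz]
  apply not_congr
  constructor
  · rintro ⟨X, _, h1, h2, h3, h4⟩
    exact h4.subset (Set.union_subset (Set.union_subset h1 h2) h3)
  · intro h
    exact ⟨_, h.subset_ground, fun a ha => Or.inl (Or.inl ha), fun a ha => Or.inl (Or.inr ha),
      fun a ha => Or.inr ha, h⟩

theorem sat_relF {X x y : ℕ} (hX : X ≠ 8) (hX' : X ≠ 9) (hx : x ≠ 7) (hy : y ≠ 7)
    (hx' : x ≠ 8) (hy' : y ≠ 8) (hx'' : x ≠ 9) (hy'' : y ≠ 9)
    (h1 : s 1 ⊆ M.E) (h3 : s 3 ⊆ M.E) (hXE : s X ⊆ M.E) :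
    Sat M (relF X x y) s ↔ ∃ t ∈ s 1, (∃ z ∈ s 3, ¬ M.Indep (s y ∪ {t} ∪ {z})) ∧
      (∃ z ∈ s X, ¬ M.Indep (s x ∪ {t} ∪ {z})) := by
  unfold relF
  rw [sat_exEl (by decide) (by decide) h1]
  apply exists_congr
  intro t
  apply and_congr_right
  intro ht
  simp only [Sat]
  rw [sat_exEl (by decide) (by decide) (by simpa using h3),
    sat_exEl (by decide) hX' (by rwa [Function.update_of_ne hX])]
  simp only [sat_T hx (show (8 : ℕ) ≠ 7 by decide) (show (9 : ℕ) ≠ 7 by decide),
    sat_T hy (show (8 : ℕ) ≠ 7 by decide) (show (9 : ℕ) ≠ 7 by decide), Function.update_self,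
    Function.update_of_ne hx', Function.update_of_ne hx'', Function.update_of_ne hy',
    Function.update_of_ne hy'', Function.update_of_ne (show (8 : ℕ) ≠ 9 by decide),
    Function.update_of_ne (show (3 : ℕ) ≠ 8 by decide), Function.update_of_ne hX]

/-! ### free variables -/

theorem fv_sing (w : ℕ) : fv (sing w) ⊆ {w} := by
  intro x
  simp only [sing, al, imp, or, fv, Set.mem_union, Set.mem_insert_iff,
    Set.mem_singleton_iff, Set.mem_sdiff]
  omega

theorem fv_exEl (w X : ℕ) (φ : MS0) : fv (exEl w X φ) ⊆ ({X} ∪ fv φ) \ {w} := by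
  intro x
  have := @fv_sing w x
  simp only [Set.mem_singleton_iff] at this
  simp only [exEl, fv, Set.mem_union, Set.mem_insert_iff,
    Set.mem_singleton_iff, Set.mem_sdiff]
  tauto

theorem fv_allEl (w X : ℕ) (φ : MS0) : fv (allEl w X φ) ⊆ ({X} ∪ fv φ) \ {w} := by
  simpa only [allEl, fv] using fv_exEl w X (neg φ)

theorem fv_T (x y z : ℕ) : fv (T x y z) ⊆ {x, y, z} := by
  intro w
  simp only [T, fv, Set.mem_union, Set.mem_insert_iff,
    Set.mem_singleton_iff, Set.mem_sdiff]
  tauto

theorem fv_relF (X x y : ℕ) : fv (relF X x y) ⊆ {1, 3, X, x, y} := by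
  intro w hw
  have h1 := fv_exEl _ _ _ hw
  simp only [fv, Set.mem_union, Set.mem_insert_iff,
    Set.mem_singleton_iff, Set.mem_sdiff] at h1 ⊢
  obtain ⟨h1 | h1 | h1, h2⟩ := h1
  · tauto
  · have h3 := fv_exEl _ _ _ h1
    simp only [fv, Set.mem_union, Set.mem_insert_iff,
      Set.mem_singleton_iff, Set.mem_sdiff] at h3
    obtain ⟨h3 | h3, h4⟩ := h3
    · tauto
    · have := fv_T _ _ _ h3
      simp only [Set.mem_insert_iff, Set.mem_singleton_iff] at this
      tauto
  · have h3 := fv_exEl _ _ _ h1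
    simp only [fv, Set.mem_union, Set.mem_insert_iff,
      Set.mem_singleton_iff, Set.mem_sdiff] at h3
    obtain ⟨h3 | h3, h4⟩ := h3
    · tauto
    · have := fv_T _ _ _ h3
      simp only [Set.mem_insert_iff, Set.mem_singleton_iff] at this
      tauto

end MS0

/-- Coordinates. -/
structure Crd {α : Type} (M : Matroid α) (A B C D L : Set α) (m : ℕ) (a b : ℕ → α)
    (c : ℕ → ℕ → α) : Prop where
  hA : A ⊆ M.E
  hB : B ⊆ M.E
  hC : C ⊆ M.E
  A_iff : ∀ x, x ∈ A ↔ ∃ i, i < m ∧ x = a i
  a_inj : ∀ i j, i < m → j < m → a i = a j → i = j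
  c_inj : ∀ i j i' j', i < m → j < m → i' < m → j' < m → c i j = c i' j' → i = i' ∧ j = j'
  b_mem : ∀ i, i < m → b i ∈ B
  c_mem : ∀ i j, i < m → j < m → c i j ∈ C
  dep : ∀ i j, i < m → j < m → ∀ z ∈ C, (¬ M.Indep ({a i} ∪ {b j} ∪ {z}) ↔ z = c i j)
  dD : ∀ i, i < m → ∀ y ∈ B, ((∃ z ∈ D, ¬ M.Indep ({a i} ∪ {y} ∪ {z})) ↔ y = b i)
  DC : D ⊆ C
  LC : L ⊆ C
  dL : ∀ i j, i < m → j < m → (c i j ∈ L ↔ i ≤ j)

namespace Crd

open MS0

variable {α : Type} {M : Matroid α} {s : ℕ → Set α} {m : ℕ} {a b : ℕ → α} {c : ℕ → ℕ → α}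

theorem sat_relF (h : Crd M (s 0) (s 1) (s 2) (s 3) (s 4) m a b c) {X x y : ℕ}
    (hX : X ≠ 8) (hX' : X ≠ 9) (hx : 10 ≤ x) (hy : 10 ≤ y) (hXC : s X ⊆ s 2) {i j : ℕ}
    (hi : i < m) (hj : j < m) (hsx : s x = {a i}) (hsy : s y = {a j}) :
    Sat M (relF X x y) s ↔ c i j ∈ s X := by
  rw [MS0.sat_relF hX hX' (by omega) (by omega) (by omega) (by omega) (by omega) (by omega)
    h.hB (h.DC.trans h.hC) (hXC.trans h.hC), hsx, hsy]
  constructor
  · rintro ⟨t, ht, h1, z, hz, h2⟩
    rw [h.dD j hj t ht] at h1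
    subst h1
    rw [h.dep i j hi hj z (hXC hz)] at h2
    rwa [h2] at hz
  · intro hc
    refine ⟨b j, h.b_mem j hj, (h.dD j hj _ (h.b_mem j hj)).2 rfl, c i j, hc, ?_⟩
    rw [h.dep i j hi hj _ (hXC hc)]

end Crd

open MS0 in
theorem realize {k l : ℕ} {P : Pred k l} (h : Dfn P) : ∀ (ν : Fin k → ℕ) (μ : Fin l → ℕ),
    (∀ i, 10 ≤ ν i) → (∀ j, 10 ≤ μ j) →
    ∃ φ : MS0, φ.fv ⊆ {0, 1, 2, 3, 4} ∪ Set.range ν ∪ Set.range μ ∧
    ∀ {α : Type} (M : Matroid α) (s : ℕ → Set α) (m : ℕ) (a b : ℕ → α) (c : ℕ → ℕ → α),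
      Crd M (s 0) (s 1) (s 2) (s 3) (s 4) m a b c →
      ∀ (e : Fin k → ℕ) (r : Fin l → ℕ → ℕ → Prop), (∀ i, e i < m) →
        (∀ i, s (ν i) = {a (e i)}) → (∀ j, s (μ j) ⊆ s 2) →
        (∀ j x y, x < m → y < m → (c x y ∈ s (μ j) ↔ r j x y)) →
        (Sat M φ s ↔ P m e r) := by
  induction h with
  | le x y =>
    intro ν μ hν hμ
    refine ⟨relF 4 (ν x) (ν y), ?_, ?_⟩
    · intro w hw
      have := fv_relF _ _ _ hw
      simp only [Set.mem_insert_iff, Set.mem_singleton_iff, Set.mem_union, Set.mem_range] at this ⊢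
      rcases this with h | h | h | h | h
      · tauto
      · tauto
      · tauto
      · exact Or.inl (Or.inr ⟨x, h.symm⟩)
      · exact Or.inl (Or.inr ⟨y, h.symm⟩)
    · intro α M s m a b c h e r he hsν hsμ hr
      rw [h.sat_relF (by decide) (by decide) (hν x) (hν y) h.LC (he x) (he y) (hsν x) (hsν y),
        h.dL _ _ (he x) (he y)]
  | rel j x y =>
    intro ν μ hν hμ
    refine ⟨relF (μ j) (ν x) (ν y), ?_, ?_⟩
    · intro w hw
      have := fv_relF _ _ _ hw
      simp only [Set.mem_insert_iff, Set.mem_singleton_iff, Set.mem_union, Set.mem_range] at this ⊢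
      rcases this with h | h | h | h | h
      · tauto
      · tauto
      · exact Or.inr ⟨j, h.symm⟩
      · exact Or.inl (Or.inr ⟨x, h.symm⟩)
      · exact Or.inl (Or.inr ⟨y, h.symm⟩)
    · intro α M s m a b c h e r he hsν hsμ hr
      have := hμ j
      rw [h.sat_relF (by omega) (by omega) (hν x) (hν y) (hsμ j) (he x) (he y) (hsν x) (hsν y),
        hr j _ _ (he x) (he y)]
  | neg hP ih =>
    intro ν μ hν hμ
    obtain ⟨φ, h1, h2⟩ := ih ν μ hν hμ
    refine ⟨neg φ, h1, ?_⟩
    intro α M s m a b c h e r he hsν hsμ hr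
    simp only [Sat]
    rw [h2 M s m a b c h e r he hsν hsμ hr]
  | and hP hQ ihP ihQ =>
    intro ν μ hν hμ
    obtain ⟨φ, h1, h2⟩ := ihP ν μ hν hμ
    obtain ⟨ψ, h3, h4⟩ := ihQ ν μ hν hμ
    refine ⟨and φ ψ, Set.union_subset h1 h3, ?_⟩
    intro α M s m a b c h e r he hsν hsμ hr
    simp only [Sat]
    rw [h2 M s m a b c h e r he hsν hsμ hr, h4 M s m a b c h e r he hsν hsμ hr]
  | @exF k l P hP ih =>
    intro ν μ hν hμ
    obtain ⟨w, hw⟩ := Infinite.exists_notMem_finset
      (Finset.range 10 ∪ Finset.univ.image ν ∪ Finset.univ.image μ)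
    simp only [Finset.mem_union, Finset.mem_range, Finset.mem_image, Finset.mem_univ, true_and,
      not_or, not_lt, not_exists] at hw
    obtain ⟨⟨hw10, hwν⟩, hwμ⟩ := hw
    obtain ⟨φ, h1, h2⟩ := ih (Fin.cons w ν) μ (fun i => by
      refine Fin.cases ?_ ?_ i
      · simpa using hw10
      · intro j; simpa using hν j) hμ
    refine ⟨exEl w 0 φ, ?_, ?_⟩
    · intro x hx
      have h3 := fv_exEl _ _ _ hx
      simp only [Set.mem_sdiff, Set.mem_union, Set.mem_singleton_iff] at h3
      obtain ⟨h3 | h3, h4⟩ := h3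
      · subst h3; simp
      · have h5 := h1 h3
        simp only [Set.mem_insert_iff, Set.mem_singleton_iff, Set.mem_union, Set.mem_range] at h5 ⊢
        rcases h5 with (h5 | ⟨i, h5⟩) | h5
        · exact Or.inl (Or.inl h5)
        · revert h5
          refine Fin.cases ?_ ?_ i
          · intro h5
            exact absurd h5.symm h4
          · intro j h5
            exact Or.inl (Or.inr ⟨j, h5⟩)
        · exact Or.inr h5
    · intro α M s m a b c h e r he hsν hsμ hr
      rw [sat_exEl (by omega) (by omega) h.hA]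
      have key : ∀ i, i < m → (Sat M φ (Function.update s w {a i}) ↔ P m (Fin.cons i e) r) := by
        intro i hi
        have g0 : Function.update s w {a i} 0 = s 0 := Function.update_of_ne (by omega) _ _
        have g1 : Function.update s w {a i} 1 = s 1 := Function.update_of_ne (by omega) _ _
        have g2 : Function.update s w {a i} 2 = s 2 := Function.update_of_ne (by omega) _ _
        have g3 : Function.update s w {a i} 3 = s 3 := Function.update_of_ne (by omega) _ _
        have g4 : Function.update s w {a i} 4 = s 4 := Function.update_of_ne (by omega) _ _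
        have gμ : ∀ j, Function.update s w {a i} (μ j) = s (μ j) :=
          fun j => Function.update_of_ne (hwμ j) _ _
        refine h2 M _ m a b c (by rw [g0, g1, g2, g3, g4]; exact h) (Fin.cons i e) r ?_ ?_ ?_ ?_
        · intro j
          refine Fin.cases ?_ ?_ j
          · simpa using hi
          · intro j; simpa using he j
        · intro j
          refine Fin.cases ?_ ?_ j
          · simp
          · intro j
            simp only [Fin.cons_succ]
            rw [Function.update_of_ne (hwν j), hsν j]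
        · intro j
          rw [gμ, g2]; exact hsμ j
        · intro j x y hx hy
          rw [gμ]; exact hr j x y hx hy
      constructor
      · rintro ⟨x, hx, h3⟩
        obtain ⟨i, hi, rfl⟩ := (h.A_iff x).1 hx
        exact ⟨i, hi, (key i hi).1 h3⟩
      · rintro ⟨i, hi, h3⟩
        exact ⟨a i, (h.A_iff _).2 ⟨i, hi, rfl⟩, (key i hi).2 h3⟩
  | @exS k l P hP ih =>
    intro ν μ hν hμ
    obtain ⟨w, hw⟩ := Infinite.exists_notMem_finset
      (Finset.range 10 ∪ Finset.univ.image ν ∪ Finset.univ.image μ)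
    simp only [Finset.mem_union, Finset.mem_range, Finset.mem_image, Finset.mem_univ, true_and,
      not_or, not_lt, not_exists] at hw
    obtain ⟨⟨hw10, hwν⟩, hwμ⟩ := hw
    obtain ⟨φ, h1, h2⟩ := ih ν (Fin.cons w μ) hν (fun i => by
      refine Fin.cases ?_ ?_ i
      · simpa using hw10
      · intro j; simpa using hμ j)
    refine ⟨ex w (and (sub w 2) φ), ?_, ?_⟩
    · intro x hx
      simp only [fv, Set.mem_sdiff, Set.mem_union, Set.mem_singleton_iff,
        Set.mem_insert_iff] at hx
      obtain ⟨(h3 | h3) | h3, h4⟩ := hx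
      · exact absurd h3 h4
      · subst h3; simp
      · have h5 := h1 h3
        simp only [Set.mem_insert_iff, Set.mem_singleton_iff, Set.mem_union, Set.mem_range] at h5 ⊢
        rcases h5 with (h5 | h5) | ⟨i, h5⟩
        · exact Or.inl (Or.inl h5)
        · exact Or.inl (Or.inr h5)
        · revert h5
          refine Fin.cases ?_ ?_ i
          · intro h5
            exact absurd h5.symm h4
          · intro j h5
            exact Or.inr ⟨j, h5⟩
    · intro α M s m a b c h e r he hsν hsμ hr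
      simp only [Sat]
      have key : ∀ (X : Set α) (R : ℕ → ℕ → Prop), X ⊆ s 2 →
          (∀ x y, x < m → y < m → (c x y ∈ X ↔ R x y)) →
          (Sat M φ (Function.update s w X) ↔ P m e (Fin.cons R r)) := by
        intro X R hX hR
        have g0 : Function.update s w X 0 = s 0 := Function.update_of_ne (by omega) _ _
        have g1 : Function.update s w X 1 = s 1 := Function.update_of_ne (by omega) _ _
        have g2 : Function.update s w X 2 = s 2 := Function.update_of_ne (by omega) _ _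
        have g3 : Function.update s w X 3 = s 3 := Function.update_of_ne (by omega) _ _
        have g4 : Function.update s w X 4 = s 4 := Function.update_of_ne (by omega) _ _
        refine h2 M _ m a b c (by rw [g0, g1, g2, g3, g4]; exact h) e (Fin.cons R r) he ?_ ?_ ?_
        · intro j
          rw [Function.update_of_ne (hwν j), hsν j]
        · intro j
          refine Fin.cases ?_ ?_ j
          · rw [g2]; simpa using hX
          · intro j
            simp only [Fin.cons_succ]
            rw [Function.update_of_ne (hwμ j), g2]; exact hsμ j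
        · intro j
          refine Fin.cases ?_ ?_ j
          · simpa using hR
          · intro j
            simp only [Fin.cons_succ]
            rw [Function.update_of_ne (hwμ j)]; exact hr j
      constructor
      · rintro ⟨X, hX, h3, h4⟩
        rw [Function.update_self, Function.update_of_ne (by omega)] at h3
        exact ⟨fun x y => c x y ∈ X, (key X _ h3 (fun _ _ _ _ => Iff.rfl)).1 h4⟩
      · rintro ⟨R, h3⟩
        have hsub : {z | ∃ x y, x < m ∧ y < m ∧ R x y ∧ z = c x y} ⊆ s 2 := by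
          rintro z ⟨x, y, hx, hy, -, rfl⟩
          exact h.c_mem x y hx hy
        refine ⟨{z | ∃ x y, x < m ∧ y < m ∧ R x y ∧ z = c x y}, hsub.trans h.hC, ?_, ?_⟩
        · rw [Function.update_self, Function.update_of_ne (by omega)]
          exact hsub
        · refine (key _ R hsub ?_).2 h3
          intro x y hx hy
          constructor
          · rintro ⟨x', y', hx', hy', hR, heq⟩
            obtain ⟨rfl, rfl⟩ := h.c_inj _ _ _ _ hx hy hx' hy' heq
            exact hR
          · intro hR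
            exact ⟨x, y, hx, hy, hR, rfl⟩
  | @ren k l k' l' P ρ σ hP ih =>
    intro ν μ hν hμ
    obtain ⟨φ, h1, h2⟩ := ih (ν ∘ ρ) (μ ∘ σ) (fun i => hν _) (fun i => hμ _)
    refine ⟨φ, ?_, ?_⟩
    · refine h1.trans (Set.union_subset_union (Set.union_subset_union le_rfl ?_) ?_)
      · exact Set.range_comp_subset_range _ _
      · exact Set.range_comp_subset_range _ _
    · intro α M s m a b c h e r he hsν hsμ hr
      exact h2 M s m a b c h (e ∘ ρ) (r ∘ σ) (fun i => he _) (fun i => hsν _) (fun j => hsμ _)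
        (fun j => hr _)
  | congr hP hPQ ih =>
    intro ν μ hν hμ
    obtain ⟨φ, h1, h2⟩ := ih ν μ hν hμ
    refine ⟨φ, h1, ?_⟩
    intro α M s m a b c h e r he hsν hsμ hr
    rw [h2 M s m a b c h e r he hsν hsμ hr, hPQ m e r he]

end Pool.Agent.Lib.MP_682a55_lc
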