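import Pool.Agent.Lib.MP_682a55_lc.Defs

set_option autoImplicit false

namespace Pool.Agent.Lib.MP_682a55_lc

/-- Data for a gain graph on the triangle. -/
structure Tri (H : Type*) (E : Type) [Group H] where
  cls : E → Fin 3
  g : E → H
  inj : ∀ e e', cls e = cls e' → g e = g e' → e = e'

namespace Tri

variable {H : Type*} {E : Type} [Group H] (t : Tri H E)

def G : GainGraph H (Fin 3) E := ⟨t.cls, fun e => t.cls e + 1, t.g⟩

def Bal (x y z : E) : Prop := t.cls y = t.cls x + 1 ∧ t.cls z = t.cls y + 1 ∧ t.g x * t.g y * t.g z = 1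

def Col (x y z : E) : Prop := (x ≠ y ∧ x ≠ z ∧ y ≠ z) ∧
  ((t.cls x = t.cls y ∧ t.cls x = t.cls z) ∨ t.Bal x y z ∨ t.Bal x z y)

def Ind (X : Set E) : Prop := X.ncard ≤ 3 ∧ ∀ x ∈ X, ∀ y ∈ X, ∀ z ∈ X, ¬ t.Col x y z

theorem Bal.rot {x y z : E} (h : t.Bal x y z) : t.Bal y z x := by
  obtain ⟨h1, h2, h3⟩ := h
  refine ⟨h2, ?_, ?_⟩
  · rw [h2, h1]; generalize t.cls x = c; revert c; decide
  · have : t.g y * t.g z = (t.g x)⁻¹ := by
      rw [mul_assoc] at h3
      exact (inv_eq_of_mul_eq_one_right h3).symm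
    rw [this]; simp

theorem Bal.rot' {x y z : E} (h : t.Bal x y z) : t.Bal z x y := h.rot.rot

theorem Col.swap {x y z : E} (h : t.Col x y z) : t.Col x z y := by
  obtain ⟨⟨h1, h2, h3⟩, h | h | h⟩ := h
  · exact ⟨⟨h2, h1, h3.symm⟩, Or.inl ⟨h.2, h.1⟩⟩
  · exact ⟨⟨h2, h1, h3.symm⟩, Or.inr (Or.inr h)⟩
  · exact ⟨⟨h2, h1, h3.symm⟩, Or.inr (Or.inl h)⟩

theorem Col.rot {x y z : E} (h : t.Col x y z) : t.Col y z x := by
  obtain ⟨⟨h1, h2, h3⟩, h | h | h⟩ := h
  · exact ⟨⟨h3, h1.symm, h2.symm⟩, Or.inl ⟨h.1.symm.trans h.2, h.1.symm⟩⟩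
  · exact ⟨⟨h3, h1.symm, h2.symm⟩, Or.inr (Or.inl (Bal.rot t h))⟩
  · exact ⟨⟨h3, h1.symm, h2.symm⟩, Or.inr (Or.inr (Bal.rot' t h))⟩

theorem cls_aux (c : Fin 3) : c + 1 ≠ c ∧ c + 1 + 1 ≠ c ∧ c + 1 + 1 + 1 = c ∧ c ≠ c + 1 ∧ c ≠ c + 1 + 1 := by
  revert c; decide

/-- exchange -/
theorem Col.exch {p q e f : E} (h1 : t.Col p q e) (h2 : t.Col p q f) (hef : e ≠ f) :
    t.Col p e f := by
  obtain ⟨⟨a1, a2, a3⟩, h1⟩ := h1
  obtain ⟨⟨b1, b2, b3⟩, h2⟩ := h2
  refine ⟨⟨a2, b2, hef⟩, ?_⟩
  rcases h1 with h1 | h1 | h1 <;> rcases h2 with h2 | h2 | h2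
  · exact Or.inl ⟨h1.2, h2.2⟩
  · exfalso
    have := h2.1
    rw [← h1.1] at this
    exact (cls_aux _).2.2.2.1 this
  · exfalso
    have := h2.2.1
    rw [h2.1, ← h1.1] at this
    exact (cls_aux _).2.2.2.2 this
  · exfalso
    have := h1.1
    rw [← h2.1] at this
    exact (cls_aux _).2.2.2.1 this
  · exfalso
    apply hef
    apply t.inj
    · rw [h1.2.1, h2.2.1]
    · exact mul_left_cancel (h1.2.2.trans h2.2.2.symm)
  · exfalso
    have e1 := h1.1
    have e2 := h2.2.1
    rw [h2.1, e1] at e2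
    exact (cls_aux _).2.2.2.1 e2
  · exfalso
    have := h1.2.1
    rw [h1.1, ← h2.1] at this
    exact (cls_aux _).2.2.2.2 this
  · exfalso
    have e1 := h2.1
    have e2 := h1.2.1
    rw [h1.1, e1] at e2
    exact (cls_aux _).2.2.2.1 e2
  · exfalso
    apply hef
    apply t.inj
    · rw [h1.1, h2.1]
    · have := h1.2.2.trans h2.2.2.symm
      exact mul_left_cancel (mul_right_cancel this)

/-- The matroid. -/
theorem ind_aug [Finite E] {I J : Set E} (hI : t.Ind I) (hJ : t.Ind J) (hlt : I.ncard < J.ncard) :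
    ∃ e ∈ J, e ∉ I ∧ t.Ind (insert e I) := by
  have hcard : ∀ e, e ∉ I → (insert e I).ncard = I.ncard + 1 := fun e he =>
    Set.ncard_insert_of_notMem he
  have hJ3 := hJ.1
  -- small case
  by_cases h2 : I.ncard < 2
  · obtain ⟨e, heJ, heI⟩ := Set.exists_mem_notMem_of_ncard_lt_ncard hlt
    refine ⟨e, heJ, heI, by rw [hcard e heI]; omega, ?_⟩
    intro x hx y hy z hz h
    obtain ⟨⟨a1, a2, a3⟩, -⟩ := h
    have : 2 < (insert e I).ncard := by
      rw [Set.two_lt_ncard_iff]
      exact ⟨x, y, z, hx, hy, hz, a1, a2, a3⟩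
    rw [hcard e heI] at this
    omega
  · have hI2 : I.ncard = 2 := by omega
    have hJ3' : J.ncard = 3 := by omega
    obtain ⟨p, q, hpq, rfl⟩ := Set.ncard_eq_two.1 hI2
    obtain ⟨u, v, w, huv, huw, hvw, rfl⟩ := Set.ncard_eq_three.1 hJ3'
    by_contra hcon
    push Not at hcon
    -- each element of J is p, q or collinear with them
    have key : ∀ e ∈ ({u, v, w} : Set E), e ≠ p → e ≠ q → t.Col p q e := by
      intro e he hep heq
      have he' : e ∉ ({p, q} : Set E) := by simp [hep, heq]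
      have h3 := hcon e he he'
      by_contra h4
      apply h3
      refine ⟨by rw [hcard e he']; omega, ?_⟩
      intro x hx y hy z hz h
      have hd := h.1
      apply h4
      simp only [Set.mem_insert_iff, Set.mem_singleton_iff] at hx hy hz
      rcases hx with rfl | rfl | rfl <;> rcases hy with rfl | rfl | rfl <;>
        rcases hz with rfl | rfl | rfl <;>
        first
          | (exfalso; exact hd.1 rfl)
          | (exfalso; exact hd.2.1 rfl)
          | (exfalso; exact hd.2.2 rfl)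
          | exact h
          | exact Col.swap t h
          | exact Col.rot t h
          | exact Col.rot t (Col.rot t h)
          | exact Col.swap t (Col.rot t h)
          | exact Col.swap t (Col.rot t (Col.rot t h))
    have hnot := hJ.2
    have hu : u ∈ ({u, v, w} : Set E) := by simp
    have hv : v ∈ ({u, v, w} : Set E) := by simp
    have hw : w ∈ ({u, v, w} : Set E) := by simp
    -- symmetric version
    have key' : ∀ e ∈ ({u, v, w} : Set E), e ≠ p → e ≠ q → t.Col q p e := fun e he h1 h2 =>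
      Col.swap t (Col.rot t (key e he h1 h2))
    by_cases hup : u = p
    · subst hup
      by_cases hvq : v = q
      · subst hvq
        exact hnot _ hu _ hv _ hw (key w hw huw.symm hvw.symm)
      · by_cases hwq : w = q
        · subst hwq
          exact hnot _ hu _ hw _ hv (key v hv huv.symm hvw)
        · exact hnot _ hu _ hv _ hw (Col.exch t (key v hv huv.symm hvq) (key w hw huw.symm hwq) hvw)
    by_cases hvp : v = p
    · subst hvp
      by_cases huq : u = q
      · subst huq
        exact hnot _ hv _ hu _ hw (key w hw hvw.symm huw.symm)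
      · by_cases hwq : w = q
        · subst hwq
          exact hnot _ hv _ hw _ hu (key u hu huv huw)
        · exact hnot _ hv _ hu _ hw (Col.exch t (key u hu huv huq) (key w hw hvw.symm hwq) huw)
    by_cases hwp : w = p
    · subst hwp
      by_cases huq : u = q
      · subst huq
        exact hnot _ hw _ hu _ hv (key v hv hvw huv.symm)
      · by_cases hvq : v = q
        · subst hvq
          exact hnot _ hw _ hv _ hu (key u hu huw huv)
        · exact hnot _ hw _ hu _ hv (Col.exch t (key u hu huw huq) (key v hv hvw hvq) huv)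
    by_cases huq : u = q
    · subst huq
      exact hnot _ hu _ hv _ hw (Col.exch t (key' v hv hvp huv.symm) (key' w hw hwp huw.symm) hvw)
    by_cases hvq : v = q
    · subst hvq
      exact hnot _ hv _ hu _ hw (Col.exch t (key' u hu hup huv) (key' w hw hwp hvw.symm) huw)
    by_cases hwq : w = q
    · subst hwq
      exact hnot _ hw _ hu _ hv (Col.exch t (key' u hu hup huw) (key' v hv hvp hvw) huv)
    -- general case
    have c1 := Col.exch t (key u hu hup huq) (key v hv hvp hvq) huv
    have c2 := Col.exch t (key u hu hup huq) (key w hw hwp hwq) huw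
    -- Col p u v, Col p u w
    have c1' := Col.swap t (Col.rot t c1)
    have c2' := Col.swap t (Col.rot t c2)
    exact hnot _ hu _ hv _ hw (Col.exch t c1' c2' hvw)

theorem ind_subset [Finite E] {I J : Set E} (hJ : t.Ind J) (h : I ⊆ J) : t.Ind I :=
  ⟨(Set.ncard_le_ncard h).trans hJ.1, fun x hx y hy z hz => hJ.2 x (h hx) y (h hy) z (h hz)⟩

def mat [Finite E] : Matroid E :=
  (IndepMatroid.ofFinite (E := Set.univ) Set.finite_univ t.Ind
    ⟨by simp, fun x hx => absurd hx (Set.notMem_empty x)⟩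
    (fun _ _ hJ h => t.ind_subset hJ h) (fun _ _ hI hJ h => t.ind_aug hI hJ h)
    (fun _ _ => Set.subset_univ _)).matroid

theorem mat_indep [Finite E] {X : Set E} : t.mat.Indep X ↔ t.Ind X := Iff.rfl

theorem mat_E [Finite E] : t.mat.E = Set.univ := rfl

theorem mat_finite [Finite E] : t.mat.Finite := ⟨Set.toFinite _⟩

theorem mat_rank [Finite E] {x y z : E} (hxy : x ≠ y) (hxz : x ≠ z) (hyz : y ≠ z)
    (h : t.Ind {x, y, z}) : t.mat.eRank = 3 := by
  apply le_antisymm
  · obtain ⟨B, hB⟩ := t.mat.exists_isBase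
    rw [← hB.encard_eq_eRank]
    have h1 : t.Ind B := hB.indep
    rw [← (Set.toFinite B).cast_ncard_eq]
    exact_mod_cast h1.1
  · have h1 : t.mat.Indep {x, y, z} := h
    have h2 := h1.encard_le_eRank
    rw [← (Set.toFinite _).cast_ncard_eq, Set.ncard_eq_three.2 ⟨x, y, z, hxy, hxz, hyz, rfl⟩] at h2
    exact_mod_cast h2

/-! ### cycles -/

theorem start_true (e : E) : t.G.start (e, true) = t.cls e := rfl
theorem start_false (e : E) : t.G.start (e, false) = t.cls e + 1 := rfl
theorem finish_true (e : E) : t.G.finish (e, true) = t.cls e + 1 := rfl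
theorem finish_false (e : E) : t.G.finish (e, false) = t.cls e := rfl
theorem gain_true (e : E) : t.G.dirGain (e, true) = t.g e := rfl
theorem gain_false (e : E) : t.G.dirGain (e, false) = (t.g e)⁻¹ := rfl

/-- classification of cycles -/
theorem cycle_class {l : List (E × Bool)} (h : t.G.IsCycle l) :
    (∃ e₁ e₂, e₁ ≠ e₂ ∧ t.cls e₁ = t.cls e₂ ∧ (∀ e, e ∈ l.map Prod.fst ↔ e = e₁ ∨ e = e₂) ∧
      t.G.walkGain l ≠ 1) ∨
    (∃ x y z, t.cls y = t.cls x + 1 ∧ t.cls z = t.cls y + 1 ∧
      (∀ e, e ∈ l.map Prod.fst ↔ e = x ∨ e = y ∨ e = z) ∧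
      (t.G.walkGain l = 1 ↔ t.g x * t.g y * t.g z = 1)) := by
  obtain ⟨hne, hw, hc, hv, he⟩ := h
  match l, hne, hw, hc, hv, he with
  | [], hne, _, _, _, _ => exact absurd rfl hne
  | [(e, b)], _, _, hc, _, _ =>
    exfalso
    simp only [List.getLast_singleton, List.head_cons] at hc
    cases b
    · rw [finish_false, start_false] at hc
      exact (cls_aux _).2.2.2.1 hc
    · rw [finish_true, start_true] at hc
      exact (cls_aux _).1 hc
  | [(e₁, b₁), (e₂, b₂)], _, hw, hc, _, he =>
    left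
    simp only [List.isChain_cons_cons, List.isChain_singleton, and_true] at hw
    simp only [ne_eq, reduceCtorEq, not_false_eq_true, List.getLast_cons, List.getLast_singleton, List.head_cons] at hc
    simp only [List.map_cons, List.map_nil, List.nodup_cons, List.mem_singleton,
      List.not_mem_nil, not_false_eq_true, List.nodup_nil, and_self, and_true] at he
    have aux : ∀ c d : Fin 3, c + 1 = d → d + 1 = c → False := by decide
    have aux2 : ∀ c d : Fin 3, c + 1 = d + 1 → c = d := by decide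
    cases b₁ <;> cases b₂
    · exfalso
      rw [finish_false, start_false] at hw hc
      exact aux _ _ hw.symm hc.symm
    · rw [finish_false, start_true] at hw
      refine ⟨e₁, e₂, he, hw, fun e => by simp, ?_⟩
      simp only [GainGraph.walkGain, List.map_cons, List.map_nil, List.prod_cons, List.prod_nil,
        mul_one, gain_true, gain_false]
      intro h1
      exact he (t.inj _ _ hw (inv_mul_eq_one.1 h1))
    · rw [finish_true, start_false] at hw
      have hw' := aux2 _ _ hw
      refine ⟨e₁, e₂, he, hw', fun e => by simp, ?_⟩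
      simp only [GainGraph.walkGain, List.map_cons, List.map_nil, List.prod_cons, List.prod_nil,
        mul_one, gain_true, gain_false]
      intro h1
      exact he (t.inj _ _ hw' (mul_inv_eq_one.1 h1))
    · exfalso
      rw [finish_true, start_true] at hw hc
      exact aux _ _ hw hc
  | [(e₁, b₁), (e₂, b₂), (e₃, b₃)], _, hw, hc, hv, he =>
    right
    simp only [List.isChain_cons_cons, List.isChain_singleton, and_true] at hw
    simp only [ne_eq, reduceCtorEq, not_false_eq_true, List.getLast_cons, List.getLast_singleton, List.head_cons] at hc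
    obtain ⟨hw1, hw2⟩ := hw
    cases b₁ <;> cases b₂ <;> cases b₃ <;>
      simp only [finish_true, finish_false, start_true, start_false] at hw1 hw2 hc
    · -- fff
      refine ⟨e₃, e₂, e₁, hw2, hw1, fun e => by simp; tauto, ?_⟩
      simp only [GainGraph.walkGain, List.map_cons, List.map_nil, List.prod_cons, List.prod_nil,
        mul_one, gain_false]
      rw [← mul_inv_rev, ← mul_inv_rev, inv_eq_one]
    · exfalso
      have aux : ∀ c d e : Fin 3, c = d + 1 → d = e → e + 1 = c + 1 → False := by decide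
      exact aux _ _ _ hw1 hw2 hc
    · exfalso
      have aux : ∀ c d e : Fin 3, c = d → d + 1 = e + 1 → e = c + 1 → False := by decide
      exact aux _ _ _ hw1 hw2 hc
    · exfalso
      have aux : ∀ c d e : Fin 3, c = d → d + 1 = e → e + 1 = c + 1 → False := by decide
      exact aux _ _ _ hw1 hw2 hc
    · exfalso
      have aux : ∀ c d e : Fin 3, c + 1 = d + 1 → d = e + 1 → e = c → False := by decide
      exact aux _ _ _ hw1 hw2 hc
    · exfalso
      have aux : ∀ c d e : Fin 3, c + 1 = d + 1 → d = e → e + 1 = c → False := by decide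
      exact aux _ _ _ hw1 hw2 hc
    · exfalso
      have aux : ∀ c d e : Fin 3, c + 1 = d → d + 1 = e + 1 → e = c → False := by decide
      exact aux _ _ _ hw1 hw2 hc
    · -- ttt
      refine ⟨e₁, e₂, e₃, hw1.symm, hw2.symm, fun e => by simp, ?_⟩
      simp only [GainGraph.walkGain, List.map_cons, List.map_nil, List.prod_cons, List.prod_nil,
        mul_one, gain_true, mul_assoc]
  | d₁ :: d₂ :: d₃ :: d₄ :: l, _, _, _, hv, _ =>
    exfalso
    have h1 := hv.length_le_card
    simp at h1
    omega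

theorem joined_edge {X : Set E} {e : E} (he : e ∈ X) : t.G.Joined X (t.cls e) (t.cls e + 1) :=
  Relation.ReflTransGen.single ⟨(e, true), he, rfl, rfl⟩

theorem joined_edge' {X : Set E} {e : E} (he : e ∈ X) : t.G.Joined X (t.cls e + 1) (t.cls e) :=
  Relation.ReflTransGen.single ⟨(e, false), he, rfl, rfl⟩

theorem all_joined {X : Set E} {e f : E} (he : e ∈ X) (hf : f ∈ X) (hef : t.cls e ≠ t.cls f)
    (v w : Fin 3) : t.G.Joined X v w := by
  have h1 := t.joined_edge he
  have h2 := t.joined_edge' he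
  have h3 := t.joined_edge hf
  have h4 := t.joined_edge' hf
  have c1 : ∀ c d : Fin 3, c ≠ d → d = c + 1 ∨ d = c + 1 + 1 := by decide
  have c2 : ∀ c v : Fin 3, v = c ∨ v = c + 1 ∨ v = c + 1 + 1 := by decide
  have toe : ∀ v : Fin 3, t.G.Joined X v (t.cls e) ∧ t.G.Joined X (t.cls e) v := by
    intro v
    rcases c2 (t.cls e) v with h | h | h
    · rw [h]; exact ⟨Relation.ReflTransGen.refl, Relation.ReflTransGen.refl⟩
    · rw [h]; exact ⟨h2, h1⟩
    · rcases c1 _ _ hef with h5 | h5
      · rw [h5, ← h] at h3 h4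
        exact ⟨h4.trans h2, h1.trans h3⟩
      · rw [h5, (cls_aux _).2.2.1, ← h] at h3 h4
        exact ⟨h3, h4⟩
  exact (toe v).1.trans (toe w).2

theorem digon {e₁ e₂ : E} (h : e₁ ≠ e₂) (hc : t.cls e₁ = t.cls e₂) :
    t.G.IsCycle [(e₁, true), (e₂, false)] := by
  refine ⟨by simp, ?_, ?_, ?_, ?_⟩
  · simp [finish_true, start_false, hc]
  · simp [finish_false, start_true, hc]
  · simp [start_true, start_false, hc, (cls_aux _).2.2.2.1]
  · simp [h]

theorem triangle {x y z : E} (h1 : t.cls y = t.cls x + 1) (h2 : t.cls z = t.cls y + 1) :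
    t.G.IsCycle [(x, true), (y, true), (z, true)] := by
  have d1 : t.cls x ≠ t.cls y := by rw [h1]; exact (cls_aux _).2.2.2.1
  have d2 : t.cls y ≠ t.cls z := by rw [h2]; exact (cls_aux _).2.2.2.1
  have d3 : t.cls x ≠ t.cls z := by rw [h2, h1]; exact (cls_aux _).2.2.2.2
  refine ⟨by simp, ?_, ?_, ?_, ?_⟩
  · simp [finish_true, start_true, h1, h2]
  · simp only [ne_eq, reduceCtorEq, not_false_eq_true, List.getLast_cons, List.getLast_singleton, List.head_cons,
      finish_true, start_true]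
    rw [h2, h1, (cls_aux _).2.2.1]
  · simp [start_true, d1, d2, d3]
  · simp only [List.map_cons, List.map_nil, List.nodup_cons, List.mem_cons, List.not_mem_nil, or_false,
      not_or, not_false_eq_true, List.nodup_nil, and_true]
    refine ⟨⟨?_, ?_⟩, ?_⟩
    · rintro rfl; exact d1 rfl
    · rintro rfl; exact d3 rfl
    · rintro rfl; exact d2 rfl

theorem uniq {X : Set E} (h : t.G.FrameIndep X) {v : Fin 3} {l l' : List (E × Bool)}
    (hl : t.G.CycleAt X v l) (hl' : t.G.CycleAt X v l') :
    ∀ e, e ∈ l.map Prod.fst ↔ e ∈ l'.map Prod.fst := by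
  rcases h v with h | ⟨l₀, _, _, h⟩
  · exact absurd ⟨l, hl⟩ h
  · intro e
    rw [h l hl e, h l' hl' e]

theorem cycleAt_digon {X : Set E} {e₁ e₂ : E} (h : e₁ ≠ e₂) (hc : t.cls e₁ = t.cls e₂)
    (h1 : e₁ ∈ X) (h2 : e₂ ∈ X) : t.G.CycleAt X (t.cls e₁) [(e₁, true), (e₂, false)] := by
  refine ⟨t.digon h hc, ?_, ?_⟩
  · simp [h1, h2]
  · intro d hd
    simp only [List.mem_cons, List.not_mem_nil, or_false] at hd
    rcases hd with rfl | rfl
    · exact Relation.ReflTransGen.refl
    · rw [start_false, ← hc]; exact t.joined_edge h1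

theorem frame_ind [Finite E] {X : Set E} (h : t.G.FrameIndep X) : t.Ind X := by
  -- no three in the same class
  have same : ∀ x ∈ X, ∀ y ∈ X, ∀ z ∈ X, x ≠ y → x ≠ z → y ≠ z → t.cls x = t.cls y →
      t.cls x = t.cls z → False := by
    intro x hx y hy z hz hxy hxz hyz c1 c2
    have := t.uniq h (t.cycleAt_digon hxy c1 hx hy) (t.cycleAt_digon hxz c2 hx hz) y
    simp only [List.map_cons, List.map_nil, List.mem_cons, List.not_mem_nil, or_false] at this
    rcases this.1 (Or.inr trivial) with h | h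
    · exact hxy h.symm
    · exact hyz h
  have bal : ∀ x ∈ X, ∀ y ∈ X, ∀ z ∈ X, ¬ t.Bal x y z := by
    intro x hx y hy z hz ⟨c1, c2, hg⟩
    have hcyc : t.G.CycleAt X (t.cls x) [(x, true), (y, true), (z, true)] := by
      refine ⟨t.triangle c1 c2, ?_, ?_⟩
      · simp [hx, hy, hz]
      · intro d _
        exact t.all_joined hx hy (by rw [c1]; exact (cls_aux _).2.2.2.1) _ _
    rcases h (t.cls x) with h | ⟨l, hl, hlg, hu⟩
    · exact h ⟨_, hcyc⟩
    · have hE := hu _ hcyc
      simp only [List.map_cons, List.map_nil, List.mem_cons, List.not_mem_nil, or_false] at hE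
      rcases t.cycle_class hl.1 with ⟨e₁, e₂, _, hc, he, _⟩ | ⟨x', y', z', c1', c2', he, hg'⟩
      · have d1 : t.cls x ≠ t.cls y := by rw [c1]; exact (cls_aux _).2.2.2.1
        have hx' := (he x).1 ((hE x).1 (Or.inl rfl))
        have hy' := (he y).1 ((hE y).1 (Or.inr (Or.inl rfl)))
        rcases hx' with rfl | rfl <;> rcases hy' with rfl | rfl
        · exact d1 rfl
        · exact d1 hc
        · exact d1 hc.symm
        · exact d1 rfl
      · apply hlg
        rw [hg']
        have hx' := (hE x').2 ((he x').2 (Or.inl rfl))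
        have hy' := (hE y').2 ((he y').2 (Or.inr (Or.inl rfl)))
        have hz' := (hE z').2 ((he z').2 (Or.inr (Or.inr rfl)))
        have hB : t.Bal x y z := ⟨c1, c2, hg⟩
        rcases hx' with rfl | rfl | rfl
        · rcases hy' with rfl | rfl | rfl
          · exact absurd c1' (cls_aux _).2.2.2.1
          · rcases hz' with rfl | rfl | rfl
            · rw [c1] at c2'; exact absurd c2' (cls_aux _).2.2.2.2
            · exact absurd c2' (cls_aux _).2.2.2.1
            · exact hg
          · rw [c2, c1] at c1'; 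
            exact absurd c1' (by generalize t.cls x' = c; revert c; decide)
        · rcases hy' with rfl | rfl | rfl
          · rw [c1] at c1'; exact absurd c1' (cls_aux _).2.2.2.2
          · exact absurd c1' (cls_aux _).2.2.2.1
          · rcases hz' with rfl | rfl | rfl
            · exact (Bal.rot t hB).2.2
            · rw [c2] at c2'; exact absurd c2' (cls_aux _).2.2.2.2
            · exact absurd c2' (cls_aux _).2.2.2.1
        · rcases hy' with rfl | rfl | rfl
          · rcases hz' with rfl | rfl | rfl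
            · exact absurd c2' (cls_aux _).2.2.2.1
            · exact (Bal.rot' t hB).2.2
            · rw [c1'] at c2'; exact absurd c2' (cls_aux _).2.2.2.2
          · rw [c2] at c1'; exact absurd c1' (cls_aux _).2.2.2.2
          · exact absurd c1' (cls_aux _).2.2.2.1
  refine ⟨?_, ?_⟩
  · by_contra hcard
    push Not at hcard
    obtain ⟨e₁, h1, e₂, h2, h12, hc12⟩ := Set.exists_ne_map_eq_of_ncard_lt_of_maps_to
      (s := X) (t := (Set.univ : Set (Fin 3))) (f := t.cls) (by simpa using hcard) (by simp)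
    have hdiff : 1 < (X \ {e₁, e₂}).ncard := by
      have a1 : ({e₁, e₂} : Set E) ⊆ X := by
        intro a ha
        simp only [Set.mem_insert_iff, Set.mem_singleton_iff] at ha
        rcases ha with rfl | rfl <;> assumption
      rw [Set.ncard_sdiff a1, Set.ncard_pair h12]
      omega
    rw [Set.one_lt_ncard_iff] at hdiff
    obtain ⟨e₃, e₄, h3, h4, h34⟩ := hdiff
    simp only [Set.mem_sdiff, Set.mem_insert_iff, Set.mem_singleton_iff, not_or] at h3 h4
    obtain ⟨h3, h31, h32⟩ := h3
    obtain ⟨h4, h41, h42⟩ := h4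
    have c13 : t.cls e₁ ≠ t.cls e₃ := fun hc =>
      same e₁ h1 e₂ h2 e₃ h3 h12 (Ne.symm h31) (Ne.symm h32) hc12 hc
    have c14 : t.cls e₁ ≠ t.cls e₄ := fun hc =>
      same e₁ h1 e₂ h2 e₄ h4 h12 (Ne.symm h41) (Ne.symm h42) hc12 hc
    have hj := t.all_joined h1 h3 c13
    have cyc1 := t.cycleAt_digon h12 hc12 h1 h2
    -- any other cycle with edges in X containing e₃ or e₄ gives a contradiction
    have fin : ∀ l, t.G.IsCycle l → (∀ d ∈ l, d.1 ∈ X) → e₃ ∈ l.map Prod.fst → False := by
      intro l hl hlX hl3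
      have := (t.uniq h (v := t.cls e₁) ⟨hl, hlX, fun d _ => hj _ _⟩ cyc1 e₃).1 hl3
      simp only [List.map_cons, List.map_nil, List.mem_cons, List.not_mem_nil, or_false] at this
      rcases this with h | h
      · exact h31 h
      · exact h32 h
    have c2 : ∀ a b c : Fin 3, a ≠ b → a ≠ c → b = c ∨ (b = a + 1 ∧ c = b + 1) ∨ (c = a + 1 ∧ b = c + 1) := by
      decide
    rcases c2 _ _ _ c13 c14 with hc | ⟨hc, hc'⟩ | ⟨hc, hc'⟩
    · exact fin _ (t.digon h34 hc) (by simp [h3, h4]) (by simp)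
    · exact fin _ (t.triangle hc hc') (by simp [h1, h3, h4]) (by simp)
    · exact fin _ (t.triangle hc hc') (by simp [h1, h3, h4]) (by simp)
  · intro x hx y hy z hz ⟨⟨d1, d2, d3⟩, hC⟩
    rcases hC with hC | hC | hC
    · exact same x hx y hy z hz d1 d2 d3 hC.1 hC.2
    · exact bal x hx y hy z hz hC
    · exact bal x hx z hz y hy hC

theorem ind_frame [Finite E] {X : Set E} (h : t.Ind X) : t.G.FrameIndep X := by
  have four : ∀ x ∈ X, ∀ y ∈ X, ∀ z ∈ X, x ≠ y → x ≠ z → y ≠ z → ∀ w ∈ X, w = x ∨ w = y ∨ w = z := by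
    intro x hx y hy z hz hxy hxz hyz w hw
    by_contra hcon
    push Not at hcon
    have h3 : ({x, y, z} : Set E).ncard = 3 := Set.ncard_eq_three.2 ⟨x, y, z, hxy, hxz, hyz, rfl⟩
    have h4 : (insert w ({x, y, z} : Set E)).ncard = 4 := by
      rw [Set.ncard_insert_of_notMem (by simp [hcon]), h3]
    have h5 : insert w ({x, y, z} : Set E) ⊆ X := by
      intro a ha
      simp only [Set.mem_insert_iff, Set.mem_singleton_iff] at ha
      rcases ha with rfl | rfl | rfl | rfl <;> assumption
    have := Set.ncard_le_ncard h5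
    have := h.1
    omega
  -- all cycles in X have the same edge set and are unbalanced
  have triX : ∀ x ∈ X, ∀ y ∈ X, ∀ z ∈ X, t.cls y = t.cls x + 1 → t.cls z = t.cls y + 1 →
      ∀ w, w ∈ X ↔ w = x ∨ w = y ∨ w = z := by
    intro x hx y hy z hz c1 c2 w
    have d1 : t.cls x ≠ t.cls y := by rw [c1]; exact (cls_aux _).2.2.2.1
    have d2 : t.cls y ≠ t.cls z := by rw [c2]; exact (cls_aux _).2.2.2.1
    have d3 : t.cls x ≠ t.cls z := by rw [c2, c1]; exact (cls_aux _).2.2.2.2
    constructor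
    · exact four x hx y hy z hz (fun h => d1 (by rw [h])) (fun h => d3 (by rw [h]))
        (fun h => d2 (by rw [h])) w
    · rintro (rfl | rfl | rfl) <;> assumption
  have digon_tri : ∀ e₁ ∈ X, ∀ e₂ ∈ X, ∀ x ∈ X, ∀ y ∈ X, ∀ z ∈ X, e₁ ≠ e₂ → t.cls e₁ = t.cls e₂ →
      t.cls y = t.cls x + 1 → t.cls z = t.cls y + 1 → False := by
    intro e₁ h1 e₂ h2 x hx y hy z hz h12 hc c1 c2
    have d1 : t.cls x ≠ t.cls y := by rw [c1]; exact (cls_aux _).2.2.2.1
    have d2 : t.cls y ≠ t.cls z := by rw [c2]; exact (cls_aux _).2.2.2.1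
    have d3 : t.cls x ≠ t.cls z := by rw [c2, c1]; exact (cls_aux _).2.2.2.2
    have h1' := (triX x hx y hy z hz c1 c2 e₁).1 h1
    have h2' := (triX x hx y hy z hz c1 c2 e₂).1 h2
    rcases h1' with rfl | rfl | rfl <;> rcases h2' with rfl | rfl | rfl <;>
      first
        | exact h12 rfl
        | exact d1 hc
        | exact d2 hc
        | exact d3 hc
        | exact d1 hc.symm
        | exact d2 hc.symm
        | exact d3 hc.symm
  have memX : ∀ {l : List (E × Bool)} {e : E}, (∀ d ∈ l, d.1 ∈ X) → e ∈ l.map Prod.fst → e ∈ X := by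
    intro l e hl he
    obtain ⟨d, hd, rfl⟩ := List.mem_map.1 he
    exact hl d hd
  have samecls : ∀ e₁ ∈ X, ∀ e₂ ∈ X, ∀ e₃ ∈ X, e₁ ≠ e₂ → t.cls e₁ = t.cls e₂ →
      t.cls e₁ = t.cls e₃ → e₃ = e₁ ∨ e₃ = e₂ := by
    intro e₁ h1 e₂ h2 e₃ h3 h12 c1 c2
    by_contra hcon
    push Not at hcon
    exact h.2 _ h1 _ h2 _ h3 ⟨⟨h12, hcon.1.symm, hcon.2.symm⟩, Or.inl ⟨c1, c2⟩⟩
  have main : ∀ l l', t.G.IsCycle l → t.G.IsCycle l' → (∀ d ∈ l, d.1 ∈ X) → (∀ d ∈ l', d.1 ∈ X) →
      ∀ e, e ∈ l'.map Prod.fst ↔ e ∈ l.map Prod.fst := by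
    intro l l' hl hl' hX hX' e
    rcases t.cycle_class hl with ⟨e₁, e₂, h12, hc, he, -⟩ | ⟨x, y, z, c1, c2, he, -⟩
    · rcases t.cycle_class hl' with ⟨f₁, f₂, g12, gc, ge, -⟩ | ⟨x', y', z', c1', c2', he', -⟩
      · have h1 := memX hX ((he e₁).2 (Or.inl rfl))
        have h2 := memX hX ((he e₂).2 (Or.inr rfl))
        have g1 := memX hX' ((ge f₁).2 (Or.inl rfl))
        have g2 := memX hX' ((ge f₂).2 (Or.inr rfl))
        have hcls : t.cls e₁ = t.cls f₁ := by
          by_contra hne
          have := four e₁ h1 e₂ h2 f₁ g1 h12 (fun h => hne (by rw [h]))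
            (fun h => hne (by rw [hc, h])) f₂ g2
          rcases this with rfl | rfl | rfl
          · exact hne gc.symm
          · exact hne (hc.trans gc.symm)
          · exact g12 rfl
        have k1 := samecls e₁ h1 e₂ h2 f₁ g1 h12 hc hcls
        have k2 := samecls e₁ h1 e₂ h2 f₂ g2 h12 hc (hcls.trans gc)
        rw [he e, ge e]
        rcases k1 with rfl | rfl <;> rcases k2 with rfl | rfl
        · exact absurd rfl g12
        · exact Iff.rfl
        · exact or_comm
        · exact absurd rfl g12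
      · exact absurd (digon_tri e₁ (memX hX ((he e₁).2 (Or.inl rfl))) e₂
          (memX hX ((he e₂).2 (Or.inr rfl))) x' (memX hX' ((he' x').2 (Or.inl rfl)))
          y' (memX hX' ((he' y').2 (Or.inr (Or.inl rfl)))) z'
          (memX hX' ((he' z').2 (Or.inr (Or.inr rfl)))) h12 hc c1' c2') not_false
    · have tx := triX x (memX hX ((he x).2 (Or.inl rfl))) y (memX hX ((he y).2 (Or.inr (Or.inl rfl))))
        z (memX hX ((he z).2 (Or.inr (Or.inr rfl)))) c1 c2
      rcases t.cycle_class hl' with ⟨f₁, f₂, g12, gc, ge, -⟩ | ⟨x', y', z', c1', c2', he', -⟩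
      · exact absurd (digon_tri f₁ (memX hX' ((ge f₁).2 (Or.inl rfl))) f₂
          (memX hX' ((ge f₂).2 (Or.inr rfl))) x (memX hX ((he x).2 (Or.inl rfl)))
          y (memX hX ((he y).2 (Or.inr (Or.inl rfl)))) z
          (memX hX ((he z).2 (Or.inr (Or.inr rfl)))) g12 gc c1 c2) not_false
      · have tx' := triX x' (memX hX' ((he' x').2 (Or.inl rfl))) y'
          (memX hX' ((he' y').2 (Or.inr (Or.inl rfl))))
          z' (memX hX' ((he' z').2 (Or.inr (Or.inr rfl)))) c1' c2'
        rw [he e, he' e, ← tx e, ← tx' e]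
  have unbal : ∀ l, t.G.IsCycle l → (∀ d ∈ l, d.1 ∈ X) → t.G.walkGain l ≠ 1 := by
    intro l hl hX
    rcases t.cycle_class hl with ⟨e₁, e₂, h12, hc, he, hg⟩ | ⟨x, y, z, c1, c2, he, hg⟩
    · exact hg
    · rw [ne_eq, hg]
      intro hg'
      have d1 : t.cls x ≠ t.cls y := by rw [c1]; exact (cls_aux _).2.2.2.1
      have d2 : t.cls y ≠ t.cls z := by rw [c2]; exact (cls_aux _).2.2.2.1
      have d3 : t.cls x ≠ t.cls z := by rw [c2, c1]; exact (cls_aux _).2.2.2.2
      exact h.2 x (memX hX ((he x).2 (Or.inl rfl))) y (memX hX ((he y).2 (Or.inr (Or.inl rfl))))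
        z (memX hX ((he z).2 (Or.inr (Or.inr rfl))))
        ⟨⟨fun h => d1 (by rw [h]), fun h => d3 (by rw [h]), fun h => d2 (by rw [h])⟩,
          Or.inr (Or.inl ⟨c1, c2, hg'⟩)⟩
  intro v
  by_cases hex : ∃ l, t.G.CycleAt X v l
  · right
    obtain ⟨l, hl⟩ := hex
    exact ⟨l, hl, unbal l hl.1 hl.2.1, fun l' hl' => main l l' hl.1 hl'.1 hl.2.1 hl'.2.1⟩
  · left
    exact hex

def valEquiv [Finite E] : t.mat.E ≃ E where
  toFun := Subtype.val
  invFun := fun e => ⟨e, by rw [mat_E]; trivial⟩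
  left_inv := fun _ => rfl
  right_inv := fun _ => rfl

theorem gainGraphic [Finite E] : IsGainGraphic H t.mat :=
  ⟨Fin 3, E, inferInstance, inferInstance, t.G, t.valEquiv,
    fun _ => ⟨fun h => t.ind_frame h, fun h => t.frame_ind h⟩⟩

end Tri

end Pool.Agent.Lib.MP_682a55_lc
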