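import Mathlib
import Pool.Agent.Lib.MP_682a55_lc.Dfn

set_option autoImplicit false

namespace Pool.Agent.Lib.MP_682a55_lc

open List (Vector)

/-- The recursion used in primitive recursion. -/
def recf (f : ℕ) (g : ℕ → ℕ → ℕ) : ℕ → ℕ
  | 0 => f
  | n+1 => g n (recf f g n)

theorem Good.prec {n : ℕ} {F : (Fin n → ℕ) → ℕ} {G : ℕ → ℕ → (Fin n → ℕ) → ℕ}
    (hF : Good (fun e : Fin (n+1) → ℕ => F (fun i => e i.succ) = e 0))
    (hG : Good (fun e : Fin (n+3) → ℕ => G (e 1) (e 2) (fun i => e i.succ.succ.succ) = e 0)) :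
    Good (fun e : Fin (n+2) → ℕ => recf (F (fun i => e i.succ.succ))
      (fun y IH => G y IH (fun i => e i.succ.succ)) (e 1) = e 0) := by
  obtain ⟨P, hP, sP, cP⟩ := hF
  obtain ⟨Q, hQ, sQ, cQ⟩ := hG
  -- renamings
  let ρ1 : Fin (n+1) → Fin (n+4) := Fin.cases 0 (fun i => i.succ.succ.succ.succ)
  let ρ2 : Fin (n+3) → Fin (n+6) :=
    Fin.cases 1 (Fin.cases 3 (Fin.cases 2 (fun i => i.succ.succ.succ.succ.succ.succ)))
  have d1 : Dfn (k := n+2) (l := 1) (fun m e r => ∃ z, z < m ∧ (z = 0 ∧ ∃ y, y < m ∧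
      (P m (Fin.cons y (fun i => e i.succ.succ)) Fin.elim0 ∧ r 0 z y))) := by
    have := Dfn.exF (Dfn.and (Dfn.zero (l := 1) (0 : Fin (n+3)))
      (Dfn.exF (Dfn.and (Dfn.ren ρ1 (l' := 1) Fin.elim0 hP) (Dfn.rel (k := n+4) (0 : Fin 1) 1 0))))
    refine Dfn.congr this ?_
    intro m e r he
    have a1 : ∀ (z y : ℕ), ((Fin.cons y (Fin.cons z e) : Fin (n+4) → ℕ) ∘ ρ1)
        = Fin.cons y (fun i => e i.succ.succ) := by
      intro z y
      funext i
      refine Fin.cases ?_ ?_ i
      · rfl
      · intro j; rfl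
    have a2 : (r ∘ Fin.elim0 : Fin 0 → ℕ → ℕ → Prop) = Fin.elim0 := by
      funext i; exact i.elim0
    simp only [a1, a2]
    rfl
  have d2 : Dfn (k := n+2) (l := 1) (fun m e r => ∀ i, i < m → (i < e 1 → ∃ a, a < m ∧ ∃ b, b < m ∧
      ∃ i', i' < m ∧ (i' = i + 1 ∧ (r 0 i a ∧ (Q m (Fin.cons b (Fin.cons i (Fin.cons a (fun i => e i.succ.succ)))) Fin.elim0
        ∧ r 0 i' b))))) := by
    have := Dfn.all (Dfn.imp (Dfn.lt (k := n+3) (l := 1) 0 2)
      (Dfn.exF (Dfn.exF (Dfn.exF (Dfn.and (Dfn.succ (k := n+6) 3 0)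
        (Dfn.and (Dfn.rel (0 : Fin 1) 3 2)
          (Dfn.and (Dfn.ren ρ2 (l' := 1) Fin.elim0 hQ) (Dfn.rel (0 : Fin 1) 0 1))))))))
    refine Dfn.congr this ?_
    intro m e r he
    have a1 : ∀ (i' b a i : ℕ), ((Fin.cons i' (Fin.cons b (Fin.cons a (Fin.cons i e))) : Fin (n+6) → ℕ) ∘ ρ2)
        = Fin.cons b (Fin.cons i (Fin.cons a (fun i => e i.succ.succ))) := by
      intro i' b a i
      funext j
      refine Fin.cases ?_ (Fin.cases ?_ (Fin.cases ?_ ?_)) j
      · rfl
      · rfl
      · rfl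
      · intro j; rfl
    have a2 : (r ∘ Fin.elim0 : Fin 0 → ℕ → ℕ → Prop) = Fin.elim0 := by
      funext i; exact i.elim0
    simp only [a1, a2]
    rfl
  have d3 : Dfn (k := n+2) (l := 1) (fun m e r => ∀ i, i < m → ∀ a, a < m → ∀ b, b < m →
      (r 0 i a → (r 0 i b → a = b))) := by
    have := Dfn.all (Dfn.all (Dfn.all (Dfn.imp (Dfn.rel (k := n+5) (0 : Fin 1) 2 1)
      (Dfn.imp (Dfn.rel (0 : Fin 1) 2 0) (Dfn.eq 1 0)))))
    exact this
  have d4 : Dfn (k := n+2) (l := 1) (fun m e r => r 0 (e 1) (e 0)) := Dfn.rel 0 1 0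
  refine ⟨_, Dfn.exS (Dfn.and d1 (Dfn.and d2 (Dfn.and d3 d4))), ?_, ?_⟩
  · -- soundness
    rintro m e r he ⟨R, ⟨z, hz, rfl, y, hy, hPy, hR0⟩, h2, h3, h4⟩
    simp only [Fin.cons_zero] at hR0 h2 h3 h4
    have hrest : ∀ i : Fin n, e i.succ.succ < m := fun i => he _
    have key : ∀ i, i ≤ e 1 → ∀ a, a < m → R i a →
        a = recf (F (fun i => e i.succ.succ)) (fun y IH => G y IH (fun i => e i.succ.succ)) i := by
      intro i
      induction i with
      | zero =>
        intro _ a ha hRa
        have := sP m _ _ (by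
          intro i
          refine Fin.cases ?_ ?_ i
          · simpa using hy
          · intro j; simpa using hrest j) hPy
        simp only [Fin.cons_succ, Fin.cons_zero] at this
        rw [recf, this]
        exact h3 0 hz a ha y hy hRa hR0
      | succ i ih =>
        intro hi a ha hRa
        have him : i < m := by have := he 1; omega
        obtain ⟨a', ha', b, hb, i', hi', rfl, hRa', hQb, hRb⟩ := h2 i him (by omega)
        have e1 := ih (by omega) a' ha' hRa'
        have := sQ m _ _ (by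
          intro j
          refine Fin.cases ?_ (Fin.cases ?_ (Fin.cases ?_ ?_)) j
          · simpa using hb
          · exact him
          · exact ha'
          · intro j; exact hrest j) hQb
        have e2 : a = b := h3 (i+1) hi' a ha b hb hRa hRb
        rw [recf, ← e1, e2]
        exact this.symm
    exact (key (e 1) le_rfl (e 0) (he 0) h4).symm
  · -- completeness
    intro e he
    set rest : Fin n → ℕ := fun i => e i.succ.succ with hrest
    set h : ℕ → ℕ := recf (F rest) (fun y IH => G y IH rest) with hh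
    obtain ⟨M0, hM0⟩ := cP (Fin.cons (h 0) rest) (by simp [hh, recf])
    have hQ' : ∀ i, ∃ M, ∀ m, M ≤ m → ∀ r, Q m (Fin.cons (h (i+1)) (Fin.cons i (Fin.cons (h i) rest))) r := by
      intro i
      apply cQ
      rfl
    choose M1 hM1 using hQ'
    let N := (Finset.range (e 1 + 1)).sup h
    refine ⟨max (max M0 (e 1 + 2)) (max ((Finset.range (e 1)).sup M1) (N + 1)), fun m hm r => ?_⟩
    have b1 : M0 ≤ m := by omega
    have b2 : e 1 + 2 ≤ m := by omega
    have b3 : (Finset.range (e 1)).sup M1 ≤ m := by omega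
    have b4 : N + 1 ≤ m := by omega
    have hb : ∀ i, i ≤ e 1 → h i < m := by
      intro i hi
      have : h i ≤ N := Finset.le_sup (f := h) (Finset.mem_range.2 (by omega))
      omega
    refine ⟨fun i a => a = h i, ⟨0, by omega, rfl, h 0, hb 0 (Nat.zero_le _), hM0 m b1 _, rfl⟩, ?_, ?_, ?_⟩
    · intro i _ hi
      refine ⟨h i, hb i (le_of_lt hi), h (i+1), hb (i+1) hi, i+1, by omega, rfl, rfl, ?_, rfl⟩
      exact hM1 i m (le_trans (Finset.le_sup (f := M1) (Finset.mem_range.2 hi)) b3) _
    · intro i _ a _ b _ h1 h2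
      exact h1.trans h2.symm
    · exact he.symm

theorem ofFn_tail {n : ℕ} (e : Fin (n+1) → ℕ) :
    (List.Vector.ofFn e).tail = List.Vector.ofFn (fun i => e i.succ) := by
  rw [List.Vector.ofFn, List.Vector.tail_cons]

theorem recf_eq (f : ℕ) (g : ℕ → ℕ → ℕ) (n : ℕ) :
    (Nat.rec f g n : ℕ) = recf f g n := by
  induction n with
  | zero => rfl
  | succ n ih => simp only [recf]; rw [← ih]

theorem good_primrec {n : ℕ} {f : List.Vector ℕ n → ℕ} (hf : Nat.Primrec' f) :
    Good (fun e : Fin (n+1) → ℕ => f (List.Vector.ofFn fun i => e i.succ) = e 0) := by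
  induction hf with
  | zero =>
    exact Good.of_exact (Dfn.congr (Dfn.zero 0) (fun m e r _ => eq_comm))
  | succ =>
    exact Good.of_exact (Dfn.congr (Dfn.succ 1 0) (fun m e r _ => by
      constructor
      · intro h
        simp only [List.Vector.ofFn, List.Vector.head_cons]
        exact h.symm
      · intro h
        simp only [List.Vector.ofFn, List.Vector.head_cons] at h
        exact h.symm))
  | get i =>
    exact Good.of_exact (Dfn.congr (Dfn.eq i.succ 0) (fun m e r _ => by
      show _ ↔ (List.Vector.ofFn fun i => e i.succ).get i = e 0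
      rw [List.Vector.get_ofFn]))
  | @comp m n f g hf hg ihf ihg =>
    -- f : Vector n → ℕ, g : Fin n → Vector m → ℕ
    have h1 : Good (fun e : Fin (n + (m+1)) → ℕ =>
        (∀ i, g i (List.Vector.ofFn fun j => e (Fin.natAdd n j.succ)) = e (Fin.castAdd (m+1) i)) ∧
        f (List.Vector.ofFn fun i => e (Fin.castAdd (m+1) i)) = e (Fin.natAdd n 0)) := by
      refine Good.and (Good.allFin fun i => ?_) ?_
      · have := Good.ren (k' := n + (m+1)) (Fin.cases (Fin.castAdd (m+1) i) (fun j => Fin.natAdd n j.succ) : Fin (m+1) → Fin (n + (m+1))) (ihg i)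
        exact this
      · have := Good.ren (k' := n + (m+1)) (Fin.cases (Fin.natAdd n 0) (fun j => Fin.castAdd (m+1) j) : Fin (n+1) → Fin (n + (m+1))) ihf
        exact this
    have h2 := Good.exN n (k := m+1) (R := fun w e =>
        (∀ i, g i (List.Vector.ofFn fun j => e j.succ) = w i) ∧ f (List.Vector.ofFn w) = e 0) h1
    refine h2.congr ?_
    intro e
    constructor
    · rintro ⟨w, hw, h⟩
      have : w = fun i => g i (List.Vector.ofFn fun j => e j.succ) := by
        funext i; exact (hw i).symm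
      rw [← h, this]
    · intro h
      exact ⟨_, fun i => rfl, h⟩
  | @prec n f g hf hg ihf ihg =>
    have h := Good.prec (F := fun e => f (List.Vector.ofFn e))
      (G := fun y IH e => g (y ::ᵥ IH ::ᵥ List.Vector.ofFn e)) ihf ihg
    refine h.congr ?_
    intro e
    show _ ↔ Nat.rec (f (List.Vector.ofFn fun i => e i.succ).tail)
      (fun y IH => g (y ::ᵥ IH ::ᵥ (List.Vector.ofFn fun i => e i.succ).tail))
      (List.Vector.ofFn fun i => e i.succ).head = e 0
    rw [ofFn_tail (fun i => e i.succ)]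
    have : (List.Vector.ofFn fun i : Fin (n+1) => e i.succ).head = e 1 := rfl
    rw [this]
    exact iff_of_eq (congrArg (· = e 0) (recf_eq _ _ _).symm)

theorem mem_mOfFn {n : ℕ} (g : Fin n → Part ℕ) (w : List.Vector ℕ n) :
    w ∈ (List.Vector.mOfFn g : Part (List.Vector ℕ n)) ↔ ∀ i, w.get i ∈ g i := by
  induction n with
  | zero =>
    simp only [List.Vector.mOfFn]
    constructor
    · intro _ i; exact i.elim0
    · intro _
      rw [show w = List.Vector.nil from w.eq_nil]
      exact Part.mem_some _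
  | succ n ih =>
    simp only [List.Vector.mOfFn]
    constructor
    · intro h
      obtain ⟨a, ha, h⟩ := Part.mem_bind_iff.1 h
      obtain ⟨v, hv, h⟩ := Part.mem_bind_iff.1 h
      have hw : w = a ::ᵥ v := Part.mem_some_iff.1 h
      subst hw
      intro i
      refine Fin.cases ?_ ?_ i
      · simpa using ha
      · intro j
        simpa using (ih (fun i => g i.succ) v).1 hv j
    · intro h
      refine Part.mem_bind_iff.2 ⟨w.head, ?_, Part.mem_bind_iff.2 ⟨w.tail, ?_, ?_⟩⟩
      · have := h 0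
        rwa [List.Vector.get_zero] at this
      · refine (ih (fun i => g i.succ) w.tail).2 ?_
        intro i
        have := h i.succ
        rwa [← List.Vector.get_tail_succ] at this
      · have : w = w.head ::ᵥ w.tail := (List.Vector.cons_head_tail w).symm
        exact Part.mem_some_iff.2 this

theorem good_partrec {n : ℕ} {f : List.Vector ℕ n →. ℕ} (hf : Nat.Partrec' f) :
    Good (fun e : Fin (n+1) → ℕ => e 0 ∈ f (List.Vector.ofFn fun i => e i.succ)) := by
  induction hf with
  | @prim n f hf =>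
    refine (good_primrec hf).congr ?_
    intro e
    simp only [PFun.coe_val, Part.mem_some_iff]
    exact eq_comm
  | @comp m n f g hf hg ihf ihg =>
    have h1 : Good (fun e : Fin (n + (m+1)) → ℕ =>
        (∀ i, e (Fin.castAdd (m+1) i) ∈ g i (List.Vector.ofFn fun j => e (Fin.natAdd n j.succ))) ∧
        e (Fin.natAdd n 0) ∈ f (List.Vector.ofFn fun i => e (Fin.castAdd (m+1) i))) := by
      refine Good.and (Good.allFin fun i => ?_) ?_
      · have := Good.ren (k' := n + (m+1)) (Fin.cases (Fin.castAdd (m+1) i) (fun j => Fin.natAdd n j.succ) : Fin (m+1) → Fin (n + (m+1))) (ihg i)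
        exact this
      · have := Good.ren (k' := n + (m+1)) (Fin.cases (Fin.natAdd n 0) (fun j => Fin.castAdd (m+1) j) : Fin (n+1) → Fin (n + (m+1))) ihf
        exact this
    have h2 := Good.exN n (k := m+1) (R := fun w e =>
        (∀ i, w i ∈ g i (List.Vector.ofFn fun j => e j.succ)) ∧ e 0 ∈ f (List.Vector.ofFn w)) h1
    refine h2.congr ?_
    intro e
    have hb : ∀ v : List.Vector ℕ m, (e 0 ∈ ((List.Vector.mOfFn fun i => g i v) >>= f) ↔
        ∃ w : List.Vector ℕ n, (∀ i, w.get i ∈ g i v) ∧ e 0 ∈ f w) := by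
      intro v
      constructor
      · intro h
        obtain ⟨w, hw, h⟩ := Part.mem_bind_iff.1 h
        exact ⟨w, (mem_mOfFn _ _).1 hw, h⟩
      · rintro ⟨w, hw, h⟩
        exact Part.mem_bind_iff.2 ⟨w, (mem_mOfFn _ _).2 hw, h⟩
    rw [hb]
    constructor
    · rintro ⟨w, hw, h⟩
      refine ⟨List.Vector.ofFn w, fun i => ?_, h⟩
      rw [List.Vector.get_ofFn]
      exact hw i
    · rintro ⟨w, hw, h⟩
      refine ⟨w.get, hw, ?_⟩
      rw [List.Vector.ofFn_get]
      exact h
  | @rfind n f hf ihf =>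
    -- ihf : e 0 ∈ f (ofFn (tail e)) where f is total
    have h1 : Good (fun e : Fin (n+1) → ℕ =>
        (∃ x, x = 0 ∧ x ∈ (f : List.Vector ℕ (n+1) →. ℕ) (List.Vector.ofFn e)) ∧
        ∀ z, z < e 0 → ∃ x, ¬ x = 0 ∧
          x ∈ (f : List.Vector ℕ (n+1) →. ℕ) (List.Vector.ofFn (Fin.cons z (fun i => e i.succ) : Fin (n+1) → ℕ))) := by
      have g0 : Good (fun e : Fin (n+2) → ℕ => ¬ e 0 = 0) :=
        Good.of_exact (Dfn.neg (Dfn.zero 0))
      have g1 : Good (fun e : Fin (n+2) → ℕ => e 0 = 0) :=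
        Good.of_exact (Dfn.zero 0)
      refine Good.and ((Good.ex (Good.and g1 ihf)).congr ?_) ?_
      · intro e
        apply exists_congr
        intro x
        simp only [Fin.cons_zero, Fin.cons_succ]
      · have g2 := Good.ex (Good.and g0 ihf)
        have g3 := Good.ren (k' := n+2) (Fin.cases 0 (fun j => j.succ.succ) : Fin (n+1) → Fin (n+2)) g2
        refine (Good.ball (0 : Fin (n+1)) g3).congr ?_
        intro e
        apply forall_congr'
        intro z
        apply imp_congr_right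
        intro _
        apply exists_congr
        intro x
        simp only [Fin.cons_zero, Fin.cons_succ]
        have : ((Fin.cons z e : Fin (n+2) → ℕ) ∘ (Fin.cases 0 (fun j => j.succ.succ) : Fin (n+1) → Fin (n+2)))
            = (Fin.cons z (fun i => e i.succ) : Fin (n+1) → ℕ) := by
          funext i
          refine Fin.cases ?_ ?_ i
          · rfl
          · intro j; rfl
        rw [this]
    refine h1.congr ?_
    intro e
    have c0 : e 0 ∈ (Nat.rfind fun n_1 => Part.some (decide (f (n_1 ::ᵥ List.Vector.ofFn fun i => e i.succ) = 0)))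
        ↔ f (e 0 ::ᵥ List.Vector.ofFn fun i => e i.succ) = 0 ∧
          ∀ z, z < e 0 → ¬ f (z ::ᵥ List.Vector.ofFn fun i => e i.succ) = 0 := by
      constructor
      · intro h
        obtain ⟨h1, h2⟩ := Nat.mem_rfind.1 h
        refine ⟨by simpa using (Part.mem_some_iff.1 h1).symm, fun z hz => ?_⟩
        have := Part.mem_some_iff.1 (h2 hz)
        simpa using this.symm
      · rintro ⟨h1, h2⟩
        refine Nat.mem_rfind.2 ⟨Part.mem_some_iff.2 (by simpa using h1), fun {z} hz => ?_⟩
        exact Part.mem_some_iff.2 (by simpa using h2 z hz)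
    refine Iff.trans ?_ c0.symm
    have c1 : ∀ z, (List.Vector.ofFn (Fin.cons z (fun i => e i.succ) : Fin (n+1) → ℕ)) =
        z ::ᵥ List.Vector.ofFn fun i => e i.succ := by
      intro z
      rw [List.Vector.ofFn]
      rfl
    have c2 : List.Vector.ofFn e = e 0 ::ᵥ List.Vector.ofFn fun i => e i.succ := by
      rw [List.Vector.ofFn]
    constructor
    · rintro ⟨⟨x, hx, h⟩, h2⟩
      subst hx
      have h' := Part.mem_some_iff.1 h
      rw [c2] at h'
      refine ⟨h'.symm, ?_⟩
      intro z hz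
      obtain ⟨x, hx, h⟩ := h2 z hz
      have h' := Part.mem_some_iff.1 h
      rw [c1] at h'
      rw [← h']
      exact hx
    · rintro ⟨h1, h2⟩
      refine ⟨⟨0, rfl, ?_⟩, ?_⟩
      · refine Part.mem_some_iff.2 ?_
        rw [c2]; exact h1.symm
      · intro z hz
        refine ⟨f (z ::ᵥ List.Vector.ofFn fun i => e i.succ), h2 z hz, ?_⟩
        refine Part.mem_some_iff.2 ?_
        rw [c1]

end Pool.Agent.Lib.MP_682a55_lc
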