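import Pool.Agent.Lib.MP_682a55_lc.Std
import Pool.Agent.Lib.MP_682a55_lc.Rec

set_option autoImplicit false

namespace Pool.Agent.Lib.MP_682a55_lc

open MS0

namespace MS0

def fvF : MS0 → Finset ℕ
  | sub i j => {i, j}
  | ind i => {i}
  | neg φ => fvF φ
  | and φ ψ => fvF φ ∪ fvF ψ
  | ex i φ => (fvF φ).erase i

theorem coe_fvF (φ : MS0) : (fvF φ : Set ℕ) = fv φ := by
  induction φ with
  | sub i j => simp [fvF, fv]
  | ind i => simp [fvF, fv]
  | neg φ ih => simpa [fvF, fv] using ih
  | and φ ψ h1 h2 => simp [fvF, fv, h1, h2]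
  | ex i φ ih => simp [fvF, fv, ih]

theorem fv_AX : fv AX ⊆ {0, 1, 2, 3, 4, 10} := by
  rw [← coe_fvF]
  have h : fvF AX ⊆ {0, 1, 2, 3, 4, 10} := by decide +kernel
  intro x hx
  have := h (Finset.mem_coe.1 hx)
  simpa using this

theorem fv_numSucc : fv numSucc ⊆ {0, 1, 2, 3, 4, 10, 11} := by
  rw [← coe_fvF]
  have h : fvF numSucc ⊆ {0, 1, 2, 3, 4, 10, 11} := by decide +kernel
  intro x hx
  have := h (Finset.mem_coe.1 hx)
  simpa using this

theorem fv_num : ∀ k, fv (num k) ⊆ {0, 1, 2, 3, 4, 10}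
  | 0 => by
    rw [← coe_fvF]
    have h : fvF (num 0) ⊆ {0, 1, 2, 3, 4, 10} := by decide +kernel
    intro x hx
    have := h (Finset.mem_coe.1 hx)
    simpa using this
  | k + 1 => by
    intro x hx
    have h1 := fv_exEl _ _ _ hx
    simp only [Set.mem_sdiff, Set.mem_union, Set.mem_singleton_iff, fv] at h1
    obtain ⟨h1 | h1 | h1, h2⟩ := h1
    · rw [h1]; simp
    · have := fv_numSucc h1
      simp only [Set.mem_insert_iff, Set.mem_singleton_iff] at this ⊢
      omega
    · have h3 := fv_exEl _ _ _ h1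
      simp only [Set.mem_sdiff, Set.mem_union, Set.mem_singleton_iff, fv,
        Set.mem_insert_iff] at h3
      obtain ⟨h3 | (h3 | h3) | h3, h4⟩ := h3
      · rw [h3]; simp
      · exact absurd h3 h4
      · exact absurd h3 h2
      · exact fv_num k h3

end MS0

def psi (Φ : MS0) (n : ℕ) : MS0 :=
  ex 0 (ex 1 (ex 2 (ex 3 (ex 4 (and AX (exEl 10 0 (and (num n) Φ)))))))

theorem psi_sentence {Φ : MS0} (hΦ : fv Φ ⊆ {0, 1, 2, 3, 4, 10}) (n : ℕ) :
    (neg (psi Φ n)).IsSentence := by
  unfold IsSentence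
  rw [Set.eq_empty_iff_forall_notMem]
  intro x hx
  simp only [psi, fv, Set.mem_sdiff, Set.mem_union, Set.mem_singleton_iff] at hx
  obtain ⟨⟨⟨⟨⟨hx, h4⟩, h3⟩, h2⟩, h1⟩, h0⟩ := hx
  have main : x ∈ ({0, 1, 2, 3, 4} : Set ℕ) := by
    rcases hx with hx | hx
    · have h : fvF AX ⊆ {0, 1, 2, 3, 4} := by decide +kernel
      rw [← coe_fvF] at hx
      have := h (Finset.mem_coe.1 hx)
      simpa using this
    · have h5 := fv_exEl _ _ _ hx
      simp only [Set.mem_sdiff, Set.mem_union, Set.mem_singleton_iff, fv] at h5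
      obtain ⟨h5 | h5 | h5, h6⟩ := h5
      · rw [h5]; simp
      · have := fv_num _ h5
        simp only [Set.mem_insert_iff, Set.mem_singleton_iff] at this ⊢
        omega
      · have := hΦ h5
        simp only [Set.mem_insert_iff, Set.mem_singleton_iff] at this ⊢
        omega
  simp only [Set.mem_insert_iff, Set.mem_singleton_iff] at main
  omega

/-- What the formula `Φ` does. -/
def Realizes (Φ : MS0) (P : Pred 1 0) : Prop :=
  ∀ {α : Type} (M : Matroid α) (s : ℕ → Set α) (m : ℕ) (a b : ℕ → α) (c : ℕ → ℕ → α),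
      Crd M (s 0) (s 1) (s 2) (s 3) (s 4) m a b c →
      ∀ (e : Fin 1 → ℕ) (r : Fin 0 → ℕ → ℕ → Prop), (∀ i, e i < m) →
        (∀ i : Fin 1, s 10 = {a (e i)}) →
        (Sat M Φ s ↔ P m e r)

theorem sat_psi_iff {α : Type} {M : Matroid α} {Φ : MS0} {n : ℕ} {s : ℕ → Set α} :
    Sat M (psi Φ n) s ↔ ∃ A ⊆ M.E, ∃ B ⊆ M.E, ∃ C ⊆ M.E, ∃ D ⊆ M.E, ∃ L ⊆ M.E,
      AXsem M A B C D L ∧
      Sat M (exEl 10 0 (and (num n) Φ)) (Function.update (Function.update (Function.update
        (Function.update (Function.update s 0 A) 1 B) 2 C) 3 D) 4 L) := by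
  simp only [psi, Sat]
  refine exists_congr fun A => and_congr_right fun hA => exists_congr fun B =>
    and_congr_right fun hB => exists_congr fun C => and_congr_right fun hC =>
    exists_congr fun D => and_congr_right fun hD => exists_congr fun L =>
    and_congr_right fun hL => ?_
  rw [sat_AX (by simpa using hA) (by simpa using hB) (by simpa using hC) (by simpa using hD)
    (by simpa using hL)]
  simp

theorem psi_sound {P : Pred 1 0} {Φ : MS0} (hΦ : Realizes Φ P) {α : Type} {M : Matroid α}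
    (hfin : M.Finite) {n : ℕ} {s : ℕ → Set α} (h : Sat M (psi Φ n) s) :
    ∃ m, n < m ∧ P m (fun _ => n) (fun i => i.elim0) := by
  rw [sat_psi_iff] at h
  obtain ⟨A, hA, B, hB, C, hC, D, hD, L, hL, hAX, h⟩ := h
  set s' := (Function.update (Function.update (Function.update
        (Function.update (Function.update s 0 A) 1 B) 2 C) 3 D) 4 L) with hs'
  have g0 : s' 0 = A := by simp [hs']
  have g1 : s' 1 = B := by simp [hs']
  have g2 : s' 2 = C := by simp [hs']
  have g3 : s' 3 = D := by simp [hs']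
  have g4 : s' 4 = L := by simp [hs']
  have hne : A.Nonempty := by
    rw [sat_exEl (by decide) (by decide) (by rw [g0]; exact hA)] at h
    obtain ⟨x, hx, -⟩ := h
    rw [g0] at hx
    exact ⟨x, hx⟩
  obtain ⟨m, a, b, c, hcrd⟩ := exists_crd hfin hA hB hC hne hAX
  have hc : Crd M (s' 0) (s' 1) (s' 2) (s' 3) (s' 4) m a b c := by
    rw [g0, g1, g2, g3, g4]; exact hcrd
  rw [hc.sat_exEl (by decide)] at h
  obtain ⟨i, hi, h⟩ := h
  simp only [Sat] at h
  obtain ⟨h1, h2⟩ := h
  have hu := hc.update (w := 10) (by decide) {a i}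
  rw [hu.sat_num n hi (by rw [Function.update_self])] at h1
  subst h1
  rw [hΦ M _ m a b c hu (fun _ => i) (fun i => i.elim0) (fun _ => hi)
    (fun _ => by rw [Function.update_self])] at h2
  exact ⟨m, hi, h2⟩

theorem psi_complete {P : Pred 1 0} {Φ : MS0} (hΦ : Realizes Φ P) {α : Type} {M : Matroid α}
    (hfin : M.Finite) {n m : ℕ} {s : ℕ → Set α} {A B C D L : Set α} (hA : A ⊆ M.E) (hB : B ⊆ M.E)
    (hC : C ⊆ M.E) (hAX : AXsem M A B C D L) (hcard : A.ncard = m) (hn : n < m)
    (h : P m (fun _ => n) (fun i => i.elim0)) : Sat M (psi Φ n) s := by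
  rw [sat_psi_iff]
  refine ⟨A, hA, B, hB, C, hC, D, hAX.a4.1.trans hC, L, hAX.a4.2.trans hC, hAX, ?_⟩
  set s' := (Function.update (Function.update (Function.update
        (Function.update (Function.update s 0 A) 1 B) 2 C) 3 D) 4 L) with hs'
  have g0 : s' 0 = A := by simp [hs']
  have g1 : s' 1 = B := by simp [hs']
  have g2 : s' 2 = C := by simp [hs']
  have g3 : s' 3 = D := by simp [hs']
  have g4 : s' 4 = L := by simp [hs']
  have hne : A.Nonempty := by
    by_contra hcon
    rw [Set.not_nonempty_iff_eq_empty] at hcon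
    rw [hcon, Set.ncard_empty] at hcard
    omega
  obtain ⟨m', a, b, c, hcrd⟩ := exists_crd hfin hA hB hC hne hAX
  have hm : m' = m := by
    rw [← hcard]
    have : A = a '' (Finset.range m' : Set ℕ) := by
      ext x
      rw [hcrd.A_iff]
      simp only [Set.mem_image, Finset.coe_range, Set.mem_Iio]
      constructor
      · rintro ⟨i, hi, rfl⟩; exact ⟨i, hi, rfl⟩
      · rintro ⟨i, hi, rfl⟩; exact ⟨i, hi, rfl⟩
    rw [this, Set.InjOn.ncard_image]
    · simp
    · intro i hi j hj hij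
      simp only [Finset.coe_range, Set.mem_Iio] at hi hj
      exact hcrd.a_inj i j hi hj hij
  subst hm
  have hc : Crd M (s' 0) (s' 1) (s' 2) (s' 3) (s' 4) m' a b c := by
    rw [g0, g1, g2, g3, g4]; exact hcrd
  rw [hc.sat_exEl (by decide)]
  refine ⟨n, hn, ?_⟩
  have hu := hc.update (w := 10) (by decide) {a n}
  simp only [Sat]
  refine ⟨(hu.sat_num n hn (by rw [Function.update_self])).2 rfl, ?_⟩
  rw [hΦ M _ m' a b c hu (fun _ => n) (fun i => i.elim0) (fun _ => hn)
    (fun _ => by rw [Function.update_self])]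
  exact h

/-! ### computability of the reduction -/

section

variable {f g : ℕ → ℕ}

theorem pr_neg (hf : Primrec f) : Primrec (fun n => 5 * f n + 2) :=
  Primrec.nat_add.comp (Primrec.nat_mul.comp (Primrec.const 5) hf) (Primrec.const 2)

theorem pr_and (hf : Primrec f) (hg : Primrec g) : Primrec (fun n => 5 * Nat.pair (f n) (g n) + 3) :=
  Primrec.nat_add.comp (Primrec.nat_mul.comp (Primrec.const 5) (Primrec₂.natPair.comp hf hg))
    (Primrec.const 3)

theorem pr_ex (i : ℕ) (hf : Primrec f) : Primrec (fun n => 5 * Nat.pair i (f n) + 4) :=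
  Primrec.nat_add.comp (Primrec.nat_mul.comp (Primrec.const 5)
    (Primrec₂.natPair.comp (Primrec.const i) hf)) (Primrec.const 4)

/-- Primitive recursive families of formulas. -/
def PR (F : ℕ → MS0) : Prop := Primrec (fun n => code (F n))

theorem PR.neg {F : ℕ → MS0} (h : PR F) : PR (fun n => MS0.neg (F n)) := pr_neg h

theorem PR.and {F G : ℕ → MS0} (h : PR F) (h' : PR G) : PR (fun n => MS0.and (F n) (G n)) :=
  pr_and h h'

theorem PR.ex (i : ℕ) {F : ℕ → MS0} (h : PR F) : PR (fun n => MS0.ex i (F n)) := pr_ex i h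

theorem PR.const (φ : MS0) : PR (fun _ => φ) := Primrec.const _

theorem PR.exEl (i j : ℕ) {F : ℕ → MS0} (h : PR F) : PR (fun n => MS0.exEl i j (F n)) :=
  PR.ex _ (PR.and (PR.const _) (PR.and (PR.const _) h))

theorem PR.num : PR MS0.num := by
  -- the recursion step on codes
  let step : ℕ → ℕ := fun c =>
    5 * Nat.pair 11 (5 * Nat.pair (code (sing 11)) (5 * Nat.pair (code (sub 11 0))
      (5 * Nat.pair (code numSucc) (5 * Nat.pair 10 (5 * Nat.pair (code (sing 10))
        (5 * Nat.pair (code (sub 10 0)) (5 * Nat.pair (code (sub 10 11)) c + 3) + 3) + 3) + 4) + 3) + 3) + 3) + 4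
  have hstep : Primrec step := pr_ex _ (pr_and (Primrec.const _) (pr_and (Primrec.const _)
    (pr_and (Primrec.const _) (pr_ex _ (pr_and (Primrec.const _) (pr_and (Primrec.const _)
      (pr_and (Primrec.const _) Primrec.id)))))))
  have h : Primrec (Nat.rec (code (MS0.num 0)) (fun _ c => step c) : ℕ → ℕ) :=
    Primrec.nat_rec₁ _ (hstep.comp Primrec.snd)
  refine h.of_eq ?_
  intro n
  induction n with
  | zero => rfl
  | succ n ih =>
    have h1 : code (MS0.num (n + 1)) = step (code (MS0.num n)) := rfl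
    rw [h1, ← ih]

theorem PR.psi (Φ : MS0) : PR (fun n => MS0.neg (psi Φ n)) :=
  PR.neg (PR.ex _ (PR.ex _ (PR.ex _ (PR.ex _ (PR.ex _ (PR.and (PR.const _) (PR.exEl _ _
    (PR.and PR.num (PR.const _)))))))))

end

/-! ### the halting predicate -/

open Nat.Partrec in
theorem exists_formula : ∃ Φ : MS0, fv Φ ⊆ {0, 1, 2, 3, 4, 10} ∧ ∃ P : Pred 1 0, Realizes Φ P ∧
    (∀ m n, n < m → P m (fun _ => n) (fun i => i.elim0) →
      (Code.eval (Denumerable.ofNat Code n) 0).Dom) ∧
    (∀ n, (Code.eval (Denumerable.ofNat Code n) 0).Dom → ∃ M, ∀ m, M ≤ m →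
      P m (fun _ => n) (fun i => i.elim0)) := by
  have hpart : Partrec (fun n : ℕ => Code.eval (Denumerable.ofNat Code n) 0) :=
    Code.eval_part.comp (Computable.ofNat Code) (Computable.const 0)
  have h1 := good_partrec (Nat.Partrec'.part_iff₁.2 hpart)
  have h2 := Good.ex h1
  obtain ⟨P, hP, hs, hc⟩ := h2
  obtain ⟨Φ, hfv, hΦ⟩ := realize hP (fun _ => 10) (fun i => i.elim0) (fun _ => le_refl _)
    (fun i => i.elim0)
  refine ⟨Φ, ?_, P, ?_, ?_, ?_⟩
  · intro x hx
    have := hfv hx
    simp only [Set.mem_union, Set.mem_insert_iff, Set.mem_singleton_iff, Set.mem_range] at this ⊢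
    rcases this with (h | ⟨_, h⟩) | ⟨i, _⟩
    · tauto
    · omega
    · exact i.elim0
  · intro α M s m a b c hcrd e r he hs10
    exact hΦ M s m a b c hcrd e r he hs10 (fun i => i.elim0) (fun i => i.elim0)
  · intro m n hn hPn
    obtain ⟨y, hy⟩ := hs m (fun _ => n) _ (fun _ => hn) hPn
    rw [Part.dom_iff_mem]
    refine ⟨y, ?_⟩
    simpa using hy
  · intro n hn
    rw [Part.dom_iff_mem] at hn
    obtain ⟨y, hy⟩ := hn
    obtain ⟨M, hM⟩ := hc (fun _ => n) ⟨y, by simpa using hy⟩
    exact ⟨M, fun m hm => hM m hm _⟩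

open Nat.Partrec in
theorem main (H : Type*) [Group H] [Infinite H] : ¬ DecidableTheory (theoryRankThree H) := by
  rintro ⟨f, hf, hdec⟩
  obtain ⟨Φ, hfv, P, hΦ, hsound, hcomp⟩ := exists_formula
  have key : ∀ n, neg (psi Φ n) ∈ theoryRankThree H ↔
      ¬ (Code.eval (Denumerable.ofNat Code n) 0).Dom := by
    intro n
    constructor
    · rintro ⟨-, h⟩ hdom
      obtain ⟨M₀, hM₀⟩ := hcomp n hdom
      obtain ⟨α, M, A, B, C, D, L, hfin, hrank, hgg, hA, hB, hC, hAX, hcard⟩ :=
        exists_std H (max M₀ (n + 2)) (by have := le_max_right M₀ (n + 2); omega)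
      have h1 := h α M hfin hrank hgg (fun _ => ∅) (fun _ => Set.empty_subset _)
      exact h1 (psi_complete hΦ hfin hA hB hC hAX hcard
        (by have := le_max_right M₀ (n + 2); omega) (hM₀ _ (le_max_left _ _)))
    · intro hdom
      refine ⟨psi_sentence hfv n, ?_⟩
      intro α M hfin _ _ s _ hsat
      obtain ⟨m, hm, hPm⟩ := psi_sound hΦ hfin hsat
      exact hdom (hsound m n hm hPm)
  apply ComputablePred.halting_problem 0
  rw [ComputablePred.computable_iff]
  refine ⟨fun c => !(f (code (neg (psi Φ (Encodable.encode c))))), ?_, ?_⟩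
  · have h1 : Computable (fun n => code (neg (psi Φ n))) := Primrec.to_comp (PR.psi Φ)
    exact (Primrec.not.to_comp).comp (hf.comp (h1.comp Computable.encode))
  · funext c
    have h1 := hdec (neg (psi Φ (Encodable.encode c))) (psi_sentence hfv _)
    rw [key, Denumerable.ofNat_encode] at h1
    apply propext
    simp only [Bool.not_eq_true']
    rw [← Bool.not_eq_true, h1, not_not]

end Pool.Agent.Lib.MP_682a55_lc
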