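import Pool.Agent.Lib.MP_682a55_lc.Frame
import Pool.Agent.Lib.MP_682a55_lc.Coord

set_option autoImplicit false

namespace Pool.Agent.Lib.MP_682a55_lc

theorem exists_gains (H : Type*) [Group H] [Infinite H] (m : ℕ) :
    ∃ a b : ℕ → H, ∀ i j k l, i < m → j < m → k < m → l < m → a i * b j = a k * b l →
      i = k ∧ j = l := by
  classical
  let a : ℕ → H := Infinite.natEmbedding H
  have ha : Function.Injective a := (Infinite.natEmbedding H).injective
  let F : Finset H := (Finset.range m ×ˢ Finset.range m).image (fun p => (a p.1)⁻¹ * a p.2)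
  obtain ⟨b, -, hb⟩ := exists_seq_of_forall_finset_exists (α := H) (fun _ => True)
    (fun x y => ∀ f ∈ F, y ≠ f * x) (by
      intro s _
      obtain ⟨y, hy⟩ := Infinite.exists_notMem_finset ((F ×ˢ s).image (fun p => p.1 * p.2))
      refine ⟨y, trivial, fun x hx f hf h => hy ?_⟩
      rw [Finset.mem_image]
      exact ⟨(f, x), Finset.mem_product.2 ⟨hf, hx⟩, h.symm⟩)
  refine ⟨a, b, ?_⟩
  intro i j k l hi hj hk hl h
  have mem : ∀ p q, p < m → q < m → (a p)⁻¹ * a q ∈ F := by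
    intro p q hp hq
    rw [Finset.mem_image]
    exact ⟨(p, q), Finset.mem_product.2 ⟨Finset.mem_range.2 hp, Finset.mem_range.2 hq⟩, rfl⟩
  have hjl : j = l := by
    rcases lt_trichotomy j l with h1 | h1 | h1
    · exfalso
      refine hb j l h1 _ (mem k i hk hi) ?_
      rw [mul_assoc, h, inv_mul_cancel_left]
    · exact h1
    · exfalso
      refine hb l j h1 _ (mem i k hi hk) ?_
      rw [mul_assoc, ← h, inv_mul_cancel_left]
  subst hjl
  exact ⟨ha (mul_right_cancel h), rfl⟩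

namespace Tri

variable {H : Type*} {E : Type} [Group H] (t : Tri H E)

theorem ind_triple [Finite E] {x y z : E} : t.Ind {x, y, z} ↔ ¬ t.Col x y z := by
  constructor
  · intro h
    exact h.2 x (by simp) y (by simp) z (by simp)
  · intro h4
    refine ⟨?_, ?_⟩
    · have h1 := Set.ncard_insert_le x {y, z}
      have h2 := Set.ncard_insert_le y {z}
      rw [Set.ncard_singleton] at h2
      omega
    intro u hx v hy w hz h
    have hd := h.1
    apply h4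
    simp only [Set.mem_insert_iff, Set.mem_singleton_iff] at hx hy hz
    rcases hx with rfl | rfl | rfl <;> rcases hy with rfl | rfl | rfl <;>
      rcases hz with rfl | rfl | rfl <;>
      first
        | (exfalso; exact hd.1 rfl)
        | (exfalso; exact hd.2.1 rfl)
        | (exfalso; exact hd.2.2 rfl)
        | exact h
        | exact Col.swap t h
        | exact Col.rot t h
        | exact Col.rot t (Col.rot t h)
        | exact Col.swap t (Col.rot t h)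
        | exact Col.swap t (Col.rot t (Col.rot t h))

theorem dep_iff [Finite E] {x y z : E} (h1 : t.cls y = t.cls x + 1) (h2 : t.cls z = t.cls y + 1) :
    Dep t.mat x y z ↔ t.g x * t.g y * t.g z = 1 := by
  have d1 : t.cls x ≠ t.cls y := by rw [h1]; exact (cls_aux _).2.2.2.1
  have d2 : t.cls y ≠ t.cls z := by rw [h2]; exact (cls_aux _).2.2.2.1
  have d3 : t.cls x ≠ t.cls z := by rw [h2, h1]; exact (cls_aux _).2.2.2.2
  have hs : ({x} ∪ {y} ∪ {z} : Set E) = {x, y, z} := by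
    ext w; simp; tauto
  unfold Dep
  rw [hs, mat_indep, ind_triple, not_not]
  constructor
  · rintro ⟨-, h | h | h⟩
    · exact absurd h.1 d1
    · exact h.2.2
    · exfalso
      have := h.1
      rw [h2, h1] at this
      exact absurd this (by generalize t.cls x = c; revert c; decide)
  · intro h
    exact ⟨⟨fun h => d1 (by rw [h]), fun h => d3 (by rw [h]), fun h => d2 (by rw [h])⟩,
      Or.inr (Or.inl ⟨h1, h2, h⟩)⟩

end Tri

section

variable {H : Type*} [Group H] (m : ℕ) (a b : ℕ → H)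
  (hab : ∀ i j k l, i < m → j < m → k < m → l < m → a i * b j = a k * b l → i = k ∧ j = l)

abbrev StdE (m : ℕ) : Type := Fin m ⊕ Fin m ⊕ (Fin m × Fin m)

def stdTri : Tri H (StdE m) where
  cls := Sum.elim (fun _ => 0) (Sum.elim (fun _ => 1) (fun _ => 2))
  g := Sum.elim (fun i => a i) (Sum.elim (fun j => b j) (fun p => (a p.1 * b p.2)⁻¹))
  inj := by
    rintro (i | i | ⟨i, j⟩) (k | k | ⟨k, l⟩) h1 h2
    · simp only [Sum.elim_inl] at h2
      have := hab i i k i i.2 i.2 k.2 i.2 (by rw [h2])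
      rw [Fin.ext this.1]
    · simp at h1
    · simp at h1
    · simp at h1
    · simp only [Sum.elim_inl, Sum.elim_inr] at h2
      have := hab i i i k i.2 i.2 i.2 k.2 (by rw [h2])
      rw [Fin.ext this.2]
    · simp at h1
    · simp at h1
    · simp at h1
    · simp only [Sum.elim_inr, inv_inj] at h2
      have := hab i j k l i.2 j.2 k.2 l.2 h2
      rw [Fin.ext this.1, Fin.ext this.2]

theorem std_dep (i j : Fin m) (p : Fin m × Fin m) :
    Dep (stdTri m a b hab).mat (Sum.inl i) (Sum.inr (Sum.inl j)) (Sum.inr (Sum.inr p)) ↔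
      p = (i, j) := by
  rw [Tri.dep_iff _ (by simp [stdTri]) (by simp [stdTri])]
  simp only [stdTri, Sum.elim_inl, Sum.elim_inr]
  rw [mul_inv_eq_one]
  constructor
  · intro h
    have := hab i j p.1 p.2 i.2 j.2 p.1.2 p.2.2 h
    exact Prod.ext (Fin.ext this.1.symm) (Fin.ext this.2.symm)
  · rintro rfl
    rfl

theorem std_ax : AXsem (stdTri m a b hab).mat (Set.range (fun i : Fin m => (Sum.inl i : StdE m)))
    (Set.range (fun i : Fin m => (Sum.inr (Sum.inl i) : StdE m)))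
    (Set.range (fun p : Fin m × Fin m => (Sum.inr (Sum.inr p) : StdE m)))
    {x | ∃ i : Fin m, x = Sum.inr (Sum.inr (i, i))}
    {x | ∃ i j : Fin m, i ≤ j ∧ x = Sum.inr (Sum.inr (i, j))} := by
  have hle : ∀ i j : Fin m, Rle (stdTri m a b hab).mat
      (Set.range (fun i : Fin m => (Sum.inr (Sum.inl i) : StdE m)))
      {x | ∃ i : Fin m, x = Sum.inr (Sum.inr (i, i))}
      {x | ∃ i j : Fin m, i ≤ j ∧ x = Sum.inr (Sum.inr (i, j))} (Sum.inl i) (Sum.inl j) ↔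
      i ≤ j := by
    intro i j
    constructor
    · rintro ⟨_, ⟨k, rfl⟩, ⟨_, ⟨l, rfl⟩, h1⟩, ⟨_, ⟨l', l'', hl, rfl⟩, h2⟩⟩
      rw [std_dep] at h1 h2
      rw [Prod.mk.injEq] at h1 h2
      obtain ⟨rfl, rfl⟩ := h1
      obtain ⟨rfl, rfl⟩ := h2
      exact hl
    · intro h
      refine ⟨_, ⟨j, rfl⟩, ⟨_, ⟨j, rfl⟩, ?_⟩, ⟨_, ⟨i, j, h, rfl⟩, ?_⟩⟩
      · rw [std_dep]
      · rw [std_dep]
  constructor
  · rintro _ ⟨i, rfl⟩ _ ⟨j, rfl⟩
    exact ⟨_, ⟨(i, j), rfl⟩, by rw [std_dep]⟩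
  · rintro _ ⟨i, rfl⟩ _ ⟨j, rfl⟩ _ ⟨p, rfl⟩ _ ⟨q, rfl⟩ ⟨h1, h2⟩
    rw [std_dep] at h1 h2
    rw [h1, h2]
  · rintro _ ⟨i, rfl⟩ _ ⟨j, rfl⟩ _ ⟨p, rfl⟩ _ ⟨i', rfl⟩ _ ⟨j', rfl⟩ ⟨h1, h2⟩
    rw [std_dep] at h1 h2
    rw [h1, Prod.mk.injEq] at h2
    rw [h2.1, h2.2]
    exact ⟨rfl, rfl⟩
  · constructor
    · rintro _ ⟨i, rfl⟩
      exact ⟨_, rfl⟩
    · rintro _ ⟨i, j, _, rfl⟩
      exact ⟨_, rfl⟩
  · rintro _ ⟨i, rfl⟩
    exact ⟨_, ⟨i, rfl⟩, _, ⟨i, rfl⟩, by rw [std_dep]⟩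
  · rintro _ ⟨i, rfl⟩ _ ⟨j, rfl⟩ _ ⟨k, rfl⟩ _ ⟨j', rfl⟩ _ ⟨k', rfl⟩ ⟨h1, h2⟩
    rw [std_dep, Prod.mk.injEq] at h1 h2
    rw [← h1.2, ← h2.2, h1.1, h2.1]
  · rintro _ ⟨i, rfl⟩ _ ⟨j, rfl⟩ _ ⟨k, rfl⟩ _ ⟨i', rfl⟩ _ ⟨k', rfl⟩ ⟨h1, h2⟩
    rw [std_dep, Prod.mk.injEq] at h1 h2
    rw [← h1.1, ← h2.1, h1.2, h2.2]
  · rintro _ ⟨i, rfl⟩ _ ⟨j, rfl⟩
    rw [hle, hle]
    exact le_total i j
  · rintro _ ⟨i, rfl⟩ _ ⟨j, rfl⟩ _ ⟨k, rfl⟩
    rw [hle, hle, hle]
    exact fun h => h.1.trans h.2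
  · rintro _ ⟨i, rfl⟩ _ ⟨j, rfl⟩
    rw [hle, hle]
    exact fun h => by rw [le_antisymm h.1 h.2]

theorem std_rank (hm : 2 ≤ m) : (stdTri m a b hab).mat.eRank = 3 := by
  have h01 : (⟨0, by omega⟩ : Fin m) ≠ ⟨1, by omega⟩ := by simp
  refine Tri.mat_rank _ (x := Sum.inl ⟨0, by omega⟩) (y := Sum.inl ⟨1, by omega⟩)
    (z := Sum.inr (Sum.inl ⟨0, by omega⟩)) (by simp) (by simp) (by simp) ?_
  rw [Tri.ind_triple]
  rintro ⟨-, h | h | h⟩
  · have := h.2
    simp [stdTri] at this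
  · have := h.1
    simp [stdTri] at this
  · have := h.2.1
    simp [stdTri] at this

end

theorem exists_std (H : Type*) [Group H] [Infinite H] (m : ℕ) (hm : 2 ≤ m) :
    ∃ (α : Type) (M : Matroid α) (A B C D L : Set α), M.Finite ∧ M.eRank = 3 ∧
      IsGainGraphic H M ∧ A ⊆ M.E ∧ B ⊆ M.E ∧ C ⊆ M.E ∧ AXsem M A B C D L ∧ A.ncard = m := by
  obtain ⟨a, b, hab⟩ := exists_gains H m
  refine ⟨StdE m, (stdTri m a b hab).mat, _, _, _, _, _, Tri.mat_finite _, std_rank m a b hab hm,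
    Tri.gainGraphic _, Set.subset_univ _, Set.subset_univ _, Set.subset_univ _,
    std_ax m a b hab, ?_⟩
  rw [← Set.image_univ, Set.ncard_image_of_injective _ Sum.inl_injective]
  simp

end Pool.Agent.Lib.MP_682a55_lc
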